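import Mathlib

/-!
# Sums of distinct factorials and powers of two: polynomials

`asc l = (X+1)(X+2)...(X+l)`, `FP L = ∑ l ∈ L, asc l`, so that for a finite set `L`
`a! * (FP L)(a) = ∑ l ∈ L, (a+l)!`.
-/

set_option autoImplicit false

open Polynomial Finset

namespace Pool.Agent.Helper58.FS

/-! ### powers of two dividing products -/

theorem two_pow_dvd_right {w : ℕ} : ∀ {n : ℕ} {x y : ℤ}, (2 : ℤ) ^ n ∣ x * y → ¬ (2 : ℤ) ^ w ∣ x →
    (2 : ℤ) ^ (n + 1 - w) ∣ y := by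
  induction w with
  | zero => intro n x y _ hx; exact absurd (by simp) hx
  | succ w ih =>
    intro n x y h hx
    by_cases h2 : (2 : ℤ) ∣ x
    · obtain ⟨x', rfl⟩ := h2
      have hx' : ¬ (2 : ℤ) ^ w ∣ x' := by
        intro h'; apply hx; rw [pow_succ, mul_comm]; exact mul_dvd_mul_left 2 h'
      rcases n with _ | n
      · simp
      · have h3 : (2 : ℤ) ^ n ∣ x' * y := by
          rw [pow_succ, mul_comm, mul_assoc] at h
          exact Int.dvd_of_mul_dvd_mul_left (by norm_num) h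
        have := ih h3 hx'
        have h4 : n + 1 + 1 - (w + 1) = n + 1 - w := by omega
        rw [h4]; exact this
    · have hc : IsCoprime ((2 : ℤ) ^ n) x := by
        apply IsCoprime.pow_left
        rw [Int.isCoprime_iff_gcd_eq_one]
        have := Int.prime_two.coprime_iff_not_dvd.2 h2
        exact Int.isCoprime_iff_gcd_eq_one.1 this
      have h3 : (2 : ℤ) ^ n ∣ y := hc.dvd_of_dvd_mul_left h
      exact (pow_dvd_pow 2 (by omega)).trans h3

theorem sep {P : ℤ[X]} {n w : ℕ} {a b : ℤ} (hab : (2 : ℤ) ^ w ∣ b - a)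
    (hd : ¬ (2 : ℤ) ^ w ∣ (derivative P).eval a) (ha : (2 : ℤ) ^ n ∣ P.eval a)
    (hb : (2 : ℤ) ^ n ∣ P.eval b) : (2 : ℤ) ^ (n + 1 - w) ∣ b - a := by
  obtain ⟨k, hk⟩ := P.binomExpansion a (b - a)
  have h1 : a + (b - a) = b := by ring
  rw [h1] at hk
  have h2 : (2 : ℤ) ^ n ∣ ((derivative P).eval a + k * (b - a)) * (b - a) := by
    have h3 : ((derivative P).eval a + k * (b - a)) * (b - a) = P.eval b - P.eval a := by
      rw [hk]; ring
    rw [h3]; exact dvd_sub hb ha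
  refine two_pow_dvd_right h2 ?_
  intro h3
  apply hd
  have h4 := dvd_sub h3 (Dvd.dvd.mul_left hab k)
  simpa using h4

theorem eval_congr (P : ℤ[X]) {n : ℕ} {a b : ℤ} (hab : (2 : ℤ) ^ n ∣ b - a) :
    (2 : ℤ) ^ n ∣ P.eval b - P.eval a := hab.trans (P.sub_dvd_eval_sub b a)

theorem dvd_eval_iff (P : ℤ[X]) {n m : ℕ} (hm : m ≤ n) {a b : ℤ} (hab : (2 : ℤ) ^ n ∣ b - a) :
    (2 : ℤ) ^ m ∣ P.eval b ↔ (2 : ℤ) ^ m ∣ P.eval a := by
  have h := (pow_dvd_pow (2 : ℤ) hm).trans (eval_congr P hab)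
  constructor
  · intro h1
    have := dvd_sub h1 h
    simpa using this
  · intro h1
    have := dvd_add h1 h
    simpa using this

/-! ### the polynomials -/

/-- the linear polynomial `X + i` -/
noncomputable def lin (i : ℕ) : ℤ[X] := X + C (i : ℤ)

theorem lin_eval (i : ℕ) (a : ℤ) : (lin i).eval a = a + i := by simp [lin]

theorem lin_derivative (i : ℕ) : derivative (lin i) = 1 := by simp [lin]

/-- `(X+1)(X+2)...(X+l)` -/
noncomputable def asc (l : ℕ) : ℤ[X] := ∏ i ∈ Icc 1 l, lin i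

theorem asc_succ (l : ℕ) : asc (l + 1) = asc l * lin (l + 1) := by
  unfold asc
  rw [Finset.prod_Icc_succ_top (by omega)]

theorem asc_zero : asc 0 = 1 := by simp [asc]

theorem asc_dvd {l l' : ℕ} (h : l ≤ l') : asc l ∣ asc l' :=
  Finset.prod_dvd_prod_of_subset _ _ _ (Finset.Icc_subset_Icc_right h)

theorem lin_dvd_asc {i l : ℕ} (h1 : 1 ≤ i) (h2 : i ≤ l) : lin i ∣ asc l :=
  Finset.dvd_prod_of_mem _ (Finset.mem_Icc.2 ⟨h1, h2⟩)

theorem asc_eval_mul (a l : ℕ) : (asc l).eval (a : ℤ) * (a.factorial : ℤ) =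
    ((a + l).factorial : ℤ) := by
  induction l with
  | zero => simp [asc_zero]
  | succ l ih =>
    rw [asc_succ, eval_mul, lin_eval, ← add_assoc a l 1, Nat.factorial_succ]
    push_cast
    rw [← ih]
    push_cast
    ring

/-- `∑ l ∈ L, (X+1)...(X+l)` -/
noncomputable def FP (L : Finset ℕ) : ℤ[X] := ∑ l ∈ L, asc l

theorem FP_eval (L : Finset ℕ) (a : ℤ) : (FP L).eval a = ∑ l ∈ L, (asc l).eval a := by
  simp [FP, eval_finsetSum]

theorem FP_eval_mul (L : Finset ℕ) (a : ℕ) : (FP L).eval (a : ℤ) * (a.factorial : ℤ) =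
    ∑ l ∈ L, ((a + l).factorial : ℤ) := by
  rw [FP_eval, Finset.sum_mul]
  exact Finset.sum_congr rfl fun l _ => asc_eval_mul a l

/-- splitting off the large indices -/
theorem FP_split (L : Finset ℕ) (t : ℕ) :
    FP L = FP (L.filter (· < t)) + FP (L.filter (fun l => ¬ l < t)) := by
  unfold FP
  rw [Finset.sum_filter_add_sum_filter_not]

/-- the large indices contribute a multiple of `asc t` -/
theorem FP_large_dvd {L : Finset ℕ} {t : ℕ} (h : ∀ l ∈ L, t ≤ l) : asc t ∣ FP L :=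
  Finset.dvd_sum fun l hl => asc_dvd (h l hl)

/-- `l!` divides the values of `asc l` at natural numbers -/
theorem factorial_dvd_asc (a l : ℕ) : ((l.factorial : ℕ) : ℤ) ∣ (asc l).eval (a : ℤ) := by
  have h1 := asc_eval_mul a l
  have h2 : a.factorial * l.factorial ∣ (a + l).factorial := Nat.factorial_mul_factorial_dvd_factorial_add a l
  obtain ⟨c, hc⟩ := h2
  refine ⟨(c : ℤ), ?_⟩
  have h3 : (a.factorial : ℤ) ≠ 0 := by exact_mod_cast Nat.factorial_ne_zero a
  apply mul_right_cancel₀ h3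
  rw [h1, hc]
  push_cast
  ring

theorem two_pow_dvd_factorial (w : ℕ) : 2 ^ w ∣ (2 * w).factorial := by
  induction w with
  | zero => simp
  | succ w ih =>
    have h1 : 2 * (w + 1) = 2 * w + 1 + 1 := by ring
    rw [h1, Nat.factorial_succ, Nat.factorial_succ, pow_succ, mul_comm (2 ^ w) 2]
    refine mul_dvd_mul ⟨w + 1, by ring⟩ (ih.mul_left _)

/-- the derivatives of `asc l`, `l` large, have highly divisible values -/
theorem asc_derivative_dvd {a l w : ℕ} (h : 4 * w ≤ l) :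
    (2 : ℤ) ^ w ∣ (derivative (asc l)).eval (a : ℤ) := by
  have hval : ∀ b : ℕ, (2 : ℤ) ^ (2 * w) ∣ (asc l).eval (b : ℤ) := by
    intro b
    have h1 : 2 ^ (2 * w) ∣ l.factorial :=
      (two_pow_dvd_factorial (2 * w)).trans (Nat.factorial_dvd_factorial (by omega))
    have h2 : ((2 ^ (2 * w) : ℕ) : ℤ) ∣ ((l.factorial : ℕ) : ℤ) := by exact_mod_cast h1
    push_cast at h2
    exact h2.trans (factorial_dvd_asc b l)
  obtain ⟨k, hk⟩ := (asc l).binomExpansion (a : ℤ) ((2 : ℤ) ^ w)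
  have h1 := hval a
  have h2 := hval (a + 2 ^ w)
  push_cast at h2
  rw [hk] at h2
  have h3 : (2 : ℤ) ^ (2 * w) ∣ k * (2 ^ w) ^ 2 := ⟨k, by rw [← pow_mul, mul_comm w 2]; ring⟩
  have h4 : (2 : ℤ) ^ (2 * w) ∣ (derivative (asc l)).eval (a : ℤ) * 2 ^ w := by
    have h5 := dvd_sub (dvd_sub h2 h3) h1
    have h6 : eval (a : ℤ) (asc l) + eval (a : ℤ) (derivative (asc l)) * 2 ^ w + k * (2 ^ w) ^ 2 -
      k * (2 ^ w) ^ 2 - eval (a : ℤ) (asc l) = (derivative (asc l)).eval (a : ℤ) * 2 ^ w := by ring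
    rwa [h6] at h5
  have h7 : (2 : ℤ) ^ (2 * w) = 2 ^ w * 2 ^ w := by rw [two_mul, pow_add]
  rw [h7] at h4
  exact Int.dvd_of_mul_dvd_mul_right (by positivity) h4

theorem FP_large_derivative {L : Finset ℕ} {t w a : ℕ} (h : ∀ l ∈ L, t ≤ l) (ht : 4 * w ≤ t) :
    (2 : ℤ) ^ w ∣ (derivative (FP L)).eval (a : ℤ) := by
  unfold FP
  rw [derivative_sum, eval_finsetSum]
  exact Finset.dvd_sum fun l hl => asc_derivative_dvd (ht.trans (h l hl))

/-! ### counting -/

theorem card_le_of_congr {M r : ℕ} (hr : r ≤ M) {S : Finset ℕ} (hS : S ⊆ range (2 ^ M))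
    (h : ∀ a ∈ S, ∀ b ∈ S, (2 : ℤ) ^ r ∣ (b : ℤ) - a) : S.card ≤ 2 ^ (M - r) := by
  have h1 : ∀ a ∈ S, a / 2 ^ r ∈ range (2 ^ (M - r)) := by
    intro a ha
    have h2 := Finset.mem_range.1 (hS ha)
    rw [Finset.mem_range, Nat.div_lt_iff_lt_mul (by positivity), ← pow_add]
    rwa [Nat.sub_add_cancel hr]
  have h2 : Set.InjOn (fun a => a / 2 ^ r) (S : Set ℕ) := by
    intro a ha b hb hab
    have h3 := h a ha b hb
    have h4 : a % 2 ^ r = b % 2 ^ r := by
      have h5 : ((2 ^ r : ℕ) : ℤ) ∣ (b : ℤ) - a := by push_cast; exact h3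
      exact (Nat.modEq_iff_dvd.2 h5)
    have h6 := Nat.div_add_mod a (2 ^ r)
    have h7 := Nat.div_add_mod b (2 ^ r)
    have hab : a / 2 ^ r = b / 2 ^ r := hab
    rw [← h6, ← h7, hab, h4]
  calc S.card ≤ (range (2 ^ (M - r))).card := Finset.card_le_card_of_injOn _ h1 h2
    _ = _ := Finset.card_range _

end Pool.Agent.Helper58.FS
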