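import Pool.Agent.Helper58.FS.Double

/-!
# Counting near double roots
-/

set_option autoImplicit false

open Polynomial Finset

namespace Pool.Agent.Helper58.FS

/-- `a` is a near double root of some `F_L` -/
def Dbl (W a : ℕ) : Prop := ∃ L : Finset ℕ, 0 ∈ L ∧ (2 : ℤ) ^ W ∣ (FP L).eval (a : ℤ) ∧
  (2 : ℤ) ^ W ∣ (derivative (FP L)).eval (a : ℤ)

theorem GP_split (L : Finset ℕ) {t : ℕ} (ht : 2 ≤ t) :
    GP L = GP (L.filter (· < t)) + ∑ l ∈ L.filter (fun l => ¬ l < t), A l := by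
  unfold GP
  have h1 : L.filter (2 ≤ ·) = (L.filter (· < t)).filter (2 ≤ ·) ∪ L.filter (fun l => ¬ l < t) := by
    ext x
    simp only [Finset.mem_union, Finset.mem_filter]
    constructor
    · rintro ⟨h, h'⟩
      by_cases h2 : x < t
      · exact Or.inl ⟨⟨h, h2⟩, h'⟩
      · exact Or.inr ⟨h, h2⟩
    · rintro (⟨⟨h, _⟩, h'⟩ | ⟨h, h'⟩)
      · exact ⟨h, h'⟩
      · exact ⟨h, by omega⟩
  rw [h1, Finset.sum_union, add_assoc]
  rw [Finset.disjoint_left]
  intro x hx hx'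
  exact (Finset.mem_filter.1 hx').2 (Finset.mem_filter.1 (Finset.mem_filter.1 hx).1).2

theorem near_of_dbl {m t a0 W a : ℕ} (hgood : ∀ i ∈ Icc 1 t, ¬ 2 ^ m ∣ a0 + i) (hm : 3 ≤ m)
    (ht : 16 * m + 32 ≤ t) (hW : lam a0 t + m ≤ W) (hW2 : 2 * m + 10 ≤ W) (ha : a % 2 ^ m = a0 % 2 ^ m)
    (hD : Dbl W a) : 2 ∣ a0 ∧ ∃ L ∈ Adm2 m t a0, Near m t a0 L (a : ℤ) := by
  classical
  obtain ⟨L, h0, hF, hF'⟩ := hD
  have hcls : (2 : ℤ) ^ m ∣ (a : ℤ) - a0 := by
    have h3 : ((2 ^ m : ℕ) : ℤ) ∣ (a : ℤ) - a0 := Nat.modEq_iff_dvd.1 (show a0 ≡ a [MOD 2 ^ m] from ha.symm)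
    simpa using h3
  obtain ⟨h1, h2a⟩ := one_mem h0 ((dvd_pow_self 2 (by omega)).trans hF)
  have h2a0 : 2 ∣ a0 := by
    have h3 : (2 : ℤ) ∣ (a : ℤ) - a0 := (dvd_pow_self 2 (by omega)).trans hcls
    omega
  have hFG := FP_eq h0 h1
  have hnd : ¬ (2 : ℤ) ^ m ∣ (a : ℤ) + (2 : ℕ) := by
    have h3 : (2 : ℕ) ∈ Icc 1 t := Finset.mem_Icc.2 ⟨by norm_num, by omega⟩
    intro h4
    have h5 := dvd_sub h4 hcls
    have h6 : (a : ℤ) + (2 : ℕ) - (a - a0) = ((a0 + 2 : ℕ) : ℤ) := by push_cast; ring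
    rw [h6] at h5
    exact hgood 2 h3 (by exact_mod_cast h5)
  have hG : (2 : ℤ) ^ (W + 1 - m) ∣ (GP L).eval (a : ℤ) := by
    rw [hFG, eval_mul, lin_eval] at hF
    exact two_pow_dvd_right hF hnd
  have hG' : (2 : ℤ) ^ (W + 1 - m + 1 - m) ∣ (derivative (GP L)).eval (a : ℤ) := by
    rw [hFG, derivative_mul, lin_derivative, one_mul, eval_add, eval_mul, lin_eval] at hF'
    have h3 : (2 : ℤ) ^ (W + 1 - m) ∣ ((a : ℤ) + (2 : ℕ)) * (derivative (GP L)).eval (a : ℤ) := by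
      have h4 := (pow_dvd_pow (2 : ℤ) (by omega : W + 1 - m ≤ W)).trans hF'
      exact (dvd_add_right hG).1 h4
    exact two_pow_dvd_right h3 hnd
  obtain ⟨hT, h8⟩ := type_analysis (L := L) (a := (a : ℤ)) h0 h1 h2a
    ((by
      have h5 : (2 : ℤ) ^ 5 = 32 := by norm_num
      rw [← h5]
      exact pow_dvd_pow 2 (by omega) : (32 : ℤ) ∣ 2 ^ (W + 1 - m)).trans hG)
    ((by
      have h5 : (2 : ℤ) ^ 2 = 4 := by norm_num
      rw [← h5]
      exact pow_dvd_pow 2 (by omega) : (4 : ℤ) ∣ 2 ^ (W + 1 - m + 1 - m)).trans hG')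
  have hsplit := GP_split L (t := t) (by omega)
  have hN : Near m t a0 (L.filter (· < t)) (a : ℤ) := by
    refine ⟨?_, hcls, h8, ?_, ?_⟩
    · obtain ⟨k0, k1, k2, k3, k4⟩ := hT
      refine ⟨?_, ?_, ?_, ?_, ?_⟩
      · exact Finset.mem_filter.2 ⟨k0, by omega⟩
      · exact Finset.mem_filter.2 ⟨k1, by omega⟩
      · exact fun h => k2 (Finset.mem_filter.1 h).1
      · exact Finset.mem_filter.2 ⟨k3, by omega⟩
      · rw [Finset.mem_filter, Finset.mem_filter]
        constructor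
        · rintro ⟨h, _⟩; exact ⟨k4.1 h, by omega⟩
        · rintro ⟨h, _⟩; exact ⟨k4.2 h, by omega⟩
    · have h3 : (2 : ℤ) ^ lam a0 t ∣ (∑ l ∈ L.filter (fun l => ¬ l < t), A l).eval (a : ℤ) := by
        rw [eval_finsetSum]
        refine Finset.dvd_sum fun l hl => ?_
        exact (A_large hgood le_rfl (not_lt.1 (Finset.mem_filter.1 hl).2) hcls).1
      have h4 : (2 : ℤ) ^ lam a0 t ∣ (GP L).eval (a : ℤ) := (pow_dvd_pow 2 (by omega)).trans hG
      rw [hsplit, eval_add] at h4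
      exact (dvd_add_left h3).1 h4
    · have h3 : (2 : ℤ) ^ (lam a0 t - m) ∣
          (derivative (∑ l ∈ L.filter (fun l => ¬ l < t), A l)).eval (a : ℤ) := by
        rw [derivative_sum, eval_finsetSum]
        refine Finset.dvd_sum fun l hl => ?_
        exact (A_large hgood le_rfl (not_lt.1 (Finset.mem_filter.1 hl).2) hcls).2
      have h4 : (2 : ℤ) ^ (lam a0 t - m) ∣ (derivative (GP L)).eval (a : ℤ) :=
        (pow_dvd_pow 2 (by omega)).trans hG'
      rw [hsplit, derivative_add, eval_add] at h4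
      exact (dvd_add_left h3).1 h4
  refine ⟨h2a0, L.filter (· < t), ?_, hN⟩
  unfold Adm2
  rw [Finset.mem_filter, Finset.mem_powerset]
  refine ⟨?_, (a : ℤ), hN⟩
  intro l hl
  exact Finset.mem_range.2 (Finset.mem_filter.1 hl).2

open Classical in
/-- one good class -/
theorem card_dbl_class {m t a0 W M : ℕ} (hgood : ∀ i ∈ Icc 1 t, ¬ 2 ^ m ∣ a0 + i) (hm : 3 ≤ m)
    (ht : 16 * m + 32 ≤ t) (hW : lam a0 t + m ≤ W) (hW2 : 2 * m + 10 ≤ W) (hM : W ≤ M) :
    ((range (2 ^ M)).filter (fun a => a % 2 ^ m = a0 % 2 ^ m ∧ Dbl W a)).card ≤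
      2 ^ (t - (TT m t).card) * 2 ^ (M - (lam a0 t - m - 1)) := by
  by_cases h2 : 2 ∣ a0
  · have hlow := lam_lower h2 (4 * m + 8)
    have hlow2 : lam a0 (2 * (4 * m + 8) + 2) ≤ lam a0 t := lam_mono (by omega)
    have h1 : (range (2 ^ M)).filter (fun a => a % 2 ^ m = a0 % 2 ^ m ∧ Dbl W a) ⊆
        (Adm2 m t a0).biUnion fun L => (range (2 ^ M)).filter (fun a => Near m t a0 L (a : ℤ)) := by
      intro a ha
      obtain ⟨ha1, ha2, ha3⟩ := Finset.mem_filter.1 ha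
      obtain ⟨-, L, hL, hN⟩ := near_of_dbl hgood hm ht hW hW2 ha2 ha3
      rw [Finset.mem_biUnion]
      exact ⟨L, hL, Finset.mem_filter.2 ⟨ha1, hN⟩⟩
    calc _ ≤ _ := Finset.card_le_card h1
      _ ≤ (Adm2 m t a0).card * 2 ^ (M - (lam a0 t - m - 1)) := by
        refine Finset.card_biUnion_le_card_mul _ _ _ fun L _ => ?_
        refine card_le_of_congr (by omega) (Finset.filter_subset _ _) ?_
        intro a ha b hb
        obtain ⟨-, hNa⟩ := Finset.mem_filter.1 ha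
        obtain ⟨-, hNb⟩ := Finset.mem_filter.1 hb
        have h8 : (8 : ℤ) ∣ (b : ℤ) - a := by
          have h1 := dvd_sub hNb.cls hNa.cls
          have h3 : (b : ℤ) - a0 - (a - a0) = b - a := by ring
          rw [h3] at h1
          have h4 : (2 : ℤ) ^ 3 ∣ 2 ^ m := pow_dvd_pow 2 hm
          have h5 : (2 : ℤ) ^ 3 = 8 := by norm_num
          rw [← h5]
          exact h4.trans h1
        have h16 : (16 : ℤ) ∣ (GP L).eval (a : ℤ) := by
          have h4 : (2 : ℤ) ^ 4 ∣ 2 ^ lam a0 t := pow_dvd_pow 2 (by omega)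
          have h5 : (2 : ℤ) ^ 4 = 16 := by norm_num
          rw [← h5]
          exact h4.trans hNa.val
        have h9 := sep_critical hNa.type hNa.mod8 h8 h16 hNa.der hNb.der
        exact (pow_dvd_pow 2 (by omega)).trans h9
      _ ≤ _ := Nat.mul_le_mul_right _ (card_adm2 hgood hm h2)
  · have h0 : (range (2 ^ M)).filter (fun a => a % 2 ^ m = a0 % 2 ^ m ∧ Dbl W a) = ∅ := by
      apply Finset.filter_eq_empty_iff.2
      rintro a _ ⟨ha2, ha3⟩
      exact h2 (near_of_dbl hgood hm ht hW hW2 ha2 ha3).1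
    rw [h0]; simp

theorem s2_le_of_lt {m : ℕ} : ∀ {a : ℕ}, a < 2 ^ m → s2 a ≤ m := by
  induction m with
  | zero => intro a ha; have : a = 0 := by omega
            subst this; simp [s2]
  | succ m ih =>
    intro a ha
    rw [pow_succ] at ha
    rcases Nat.even_or_odd' a with ⟨b, rfl | rfl⟩
    · rw [s2_two_mul]
      exact (ih (by omega)).trans (by omega)
    · rw [s2_two_mul_add]
      have := ih (a := b) (by omega)
      omega

theorem vv_le {m a0 t : ℕ} (h : a0 < 2 ^ m) : vv a0 t ≤ t + m := by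
  have h1 := vv_factorial a0 t
  have h2 := val_factorial a0
  have h3 := val_factorial (a0 + t)
  have h4 := s2_le_of_lt h
  omega

open Classical in
/-- near double roots are rare -/
theorem card_dbl {q m W M : ℕ} (hqm : q ≤ m) (hm3 : 3 ≤ m) (hmt : 16 * m + 32 ≤ 2 ^ q)
    (hW : 2 ^ q + 2 * m + 10 ≤ W) (hM : W ≤ M) :
    ((range (2 ^ M)).filter (fun a => Dbl W a)).card ≤
      2 ^ (M + q - m) + 2 ^ (M + 5 * m + 5 - 2 ^ (q - 1)) := by
  set t := 2 ^ q with ht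
  have hq1 : 1 ≤ q := by
    rcases Nat.eq_zero_or_pos q with h | h
    · subst h; rw [pow_zero] at ht; omega
    · exact h
  have hqt : 2 ^ (q - 1) * 2 = t := by
    rw [ht, ← pow_succ]; congr 1; omega
  have ht2 : 2 ∣ t := ⟨2 ^ (q - 1), by rw [← hqt]; ring⟩
  have hcT := card_TT (m := m) ht2
  have hcT2 : (TT m t).card ≤ t := by
    refine (Finset.card_filter_le _ _).trans ?_
    rw [Finset.card_range]
  -- bad classes
  have hbad : ((range (2 ^ M)).filter (fun a => ∃ i ∈ Icc 1 t, 2 ^ m ∣ a + i)).card ≤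
      2 ^ (M + q - m) := by
    have h1 : (range (2 ^ M)).filter (fun a => ∃ i ∈ Icc 1 t, 2 ^ m ∣ a + i) ⊆
        (Icc 1 t).biUnion fun i => (range (2 ^ M)).filter (fun a => 2 ^ m ∣ a + i) := by
      intro a ha
      obtain ⟨ha1, i, hi, ha2⟩ := Finset.mem_filter.1 ha
      rw [Finset.mem_biUnion]
      exact ⟨i, hi, Finset.mem_filter.2 ⟨ha1, ha2⟩⟩
    calc _ ≤ _ := Finset.card_le_card h1
      _ ≤ (Icc 1 t).card * 2 ^ (M - m) := by
        refine Finset.card_biUnion_le_card_mul _ _ _ fun i _ => ?_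
        refine card_le_of_congr (by omega) (Finset.filter_subset _ _) ?_
        intro a ha b hb
        have h3 := (Finset.mem_filter.1 ha).2
        have h4 := (Finset.mem_filter.1 hb).2
        have h5 : ((2 ^ m : ℕ) : ℤ) ∣ ((a + i : ℕ) : ℤ) := by exact_mod_cast h3
        have h6 : ((2 ^ m : ℕ) : ℤ) ∣ ((b + i : ℕ) : ℤ) := by exact_mod_cast h4
        have h7 := dvd_sub h6 h5
        have h8 : ((b + i : ℕ) : ℤ) - ((a + i : ℕ) : ℤ) = b - a := by push_cast; ring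
        rw [h8] at h7
        simpa using h7
      _ = 2 ^ (M + q - m) := by
        rw [Nat.card_Icc, Nat.add_sub_cancel, ht, ← pow_add]
        congr 1
        omega
  -- good classes
  have hgoodc : ∀ a0 ∈ range (2 ^ m), ((range (2 ^ M)).filter (fun a => a % 2 ^ m = a0 ∧
      (∀ i ∈ Icc 1 t, ¬ 2 ^ m ∣ a + i) ∧ Dbl W a)).card ≤ 2 ^ (M + 4 * m + 5 - 2 ^ (q - 1)) := by
    intro a0 ha0
    rw [Finset.mem_range] at ha0
    by_cases hgood : ∀ i ∈ Icc 1 t, ¬ 2 ^ m ∣ a0 + i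
    · have h3 := lam_add (a0 := a0) (t := t) (by omega)
      have h4 := vv_ge a0 q
      rw [← ht] at h4
      have h5 := ee_lt hgood (i := 2) (Finset.mem_Icc.2 ⟨by norm_num, by omega⟩)
      have h6 := vv_le (t := t) ha0
      have h1 := card_dbl_class hgood (by omega) (by omega) (by omega) (by omega) hM (W := W)
      have h2 : (range (2 ^ M)).filter (fun a => a % 2 ^ m = a0 ∧
          (∀ i ∈ Icc 1 t, ¬ 2 ^ m ∣ a + i) ∧ Dbl W a) ⊆
          (range (2 ^ M)).filter (fun a => a % 2 ^ m = a0 % 2 ^ m ∧ Dbl W a) := by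
        intro a ha
        obtain ⟨ha1, ha2, -, ha3⟩ := Finset.mem_filter.1 ha
        exact Finset.mem_filter.2 ⟨ha1, by rw [ha2, Nat.mod_eq_of_lt ha0], ha3⟩
      refine (Finset.card_le_card h2).trans (h1.trans ?_)
      rw [← pow_add]
      refine Nat.pow_le_pow_right (by norm_num) ?_
      omega
    · have h0 : (range (2 ^ M)).filter (fun a => a % 2 ^ m = a0 ∧
          (∀ i ∈ Icc 1 t, ¬ 2 ^ m ∣ a + i) ∧ Dbl W a) = ∅ := by
        apply Finset.filter_eq_empty_iff.2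
        rintro a _ ⟨ha2, ha3, -⟩
        apply hgood
        intro i hi h3
        apply ha3 i hi
        have h4 : a0 ≡ a [MOD 2 ^ m] := by
          show a0 % 2 ^ m = a % 2 ^ m
          rw [ha2, Nat.mod_eq_of_lt ha0]
        exact ((Nat.ModEq.add_right i h4).dvd_iff dvd_rfl).1 h3
      rw [h0]; simp
  have hcov : (range (2 ^ M)).filter (fun a => Dbl W a) ⊆
      (range (2 ^ M)).filter (fun a => ∃ i ∈ Icc 1 t, 2 ^ m ∣ a + i) ∪
      (range (2 ^ m)).biUnion fun a0 => (range (2 ^ M)).filter (fun a => a % 2 ^ m = a0 ∧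
        (∀ i ∈ Icc 1 t, ¬ 2 ^ m ∣ a + i) ∧ Dbl W a) := by
    intro a ha
    obtain ⟨ha1, ha2⟩ := Finset.mem_filter.1 ha
    rw [Finset.mem_union]
    by_cases h : ∃ i ∈ Icc 1 t, 2 ^ m ∣ a + i
    · exact Or.inl (Finset.mem_filter.2 ⟨ha1, h⟩)
    · right
      push Not at h
      rw [Finset.mem_biUnion]
      exact ⟨a % 2 ^ m, Finset.mem_range.2 (Nat.mod_lt _ (by positivity)),
        Finset.mem_filter.2 ⟨ha1, rfl, h, ha2⟩⟩
  calc _ ≤ _ := Finset.card_le_card hcov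
    _ ≤ _ := Finset.card_union_le _ _
    _ ≤ 2 ^ (M + q - m) + (range (2 ^ m)).card * 2 ^ (M + 4 * m + 5 - 2 ^ (q - 1)) :=
        Nat.add_le_add hbad (Finset.card_biUnion_le_card_mul _ _ _ hgoodc)
    _ = _ := by
      rw [Finset.card_range, ← pow_add]
      congr 2
      omega

end Pool.Agent.Helper58.FS
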