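import Pool.Agent.Helper58.FS.Cover

/-!
# The density theorem
-/

set_option autoImplicit false

open Polynomial Finset Filter Topology

namespace Pool.Agent.Helper58.FS

/-- `2 ^ K` divides some `F_L(a)` -/
def AliveTo (K a : ℕ) : Prop := ∃ L : Finset ℕ, 0 ∈ L ∧ (2 : ℤ) ^ K ∣ (FP L).eval (a : ℤ)

theorem AliveTo.mono {K K' a : ℕ} (h : AliveTo K a) (hK : K' ≤ K) : AliveTo K' a := by
  obtain ⟨L, h0, hL⟩ := h
  exact ⟨L, h0, (pow_dvd_pow 2 hK).trans hL⟩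

/-- numbers below `2 ^ M` with a prescribed set of residues modulo `2 ^ k` -/
theorem card_residues {k M : ℕ} (hkM : k ≤ M) (Q : ℕ → Prop) [DecidablePred Q] {B : ℕ}
    (hB : ((range (2 ^ k)).filter Q).card ≤ B) :
    ((range (2 ^ M)).filter (fun a => Q (a % 2 ^ k))).card ≤ B * 2 ^ (M - k) := by
  have h1 : (range (2 ^ M)).filter (fun a => Q (a % 2 ^ k)) ⊆
      ((range (2 ^ k)).filter Q).biUnion fun r => (range (2 ^ M)).filter (fun a => a % 2 ^ k = r) := by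
    intro a ha
    obtain ⟨ha1, ha2⟩ := Finset.mem_filter.1 ha
    rw [Finset.mem_biUnion]
    exact ⟨a % 2 ^ k, Finset.mem_filter.2 ⟨Finset.mem_range.2 (Nat.mod_lt _ (by positivity)), ha2⟩,
      Finset.mem_filter.2 ⟨ha1, rfl⟩⟩
  calc _ ≤ _ := Finset.card_le_card h1
    _ ≤ ((range (2 ^ k)).filter Q).card * 2 ^ (M - k) := by
      refine Finset.card_biUnion_le_card_mul _ _ _ fun r _ => ?_
      refine card_le_of_congr hkM (Finset.filter_subset _ _) ?_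
      intro a ha b hb
      have ha := (Finset.mem_filter.1 ha).2
      have hb := (Finset.mem_filter.1 hb).2
      have h1 : ((2 ^ k : ℕ) : ℤ) ∣ (b : ℤ) - a := Nat.modEq_iff_dvd.1 (ha.trans hb.symm)
      simpa using h1
    _ ≤ _ := Nat.mul_le_mul_right _ hB

/-- the alive numbers lie in few residue classes -/
theorem alive_residues {r : ℕ} (hr : 5 ≤ r) : ∃ R : Finset ℕ,
    R.card * 2 ^ 2 ^ (r - 1) ≤ 2 ^ 2 ^ 2 ^ (r + 12) ∧
    ∀ a, AliveTo (2 ^ 2 ^ (r + 12)) a → a % 2 ^ 2 ^ 2 ^ (r + 12) ∈ R := by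
  classical
  obtain ⟨n, hn⟩ : ∃ n, n = 2 ^ r := ⟨_, rfl⟩
  obtain ⟨n2, hn2⟩ : ∃ n2, n2 = 2 ^ (r - 1) := ⟨_, rfl⟩
  have hnn : n = 2 * n2 := by
    rw [hn, hn2, ← pow_succ']; congr 1; omega
  have hr7 : r + 7 ≤ n2 := by
    have h4 : ∀ i : ℕ, (i + 5) + 7 ≤ 2 ^ (i + 4) := by
      intro i
      induction i with
      | zero => norm_num
      | succ i ih =>
        have : 2 ^ (i + 1 + 4) = 2 * 2 ^ (i + 4) := by ring
        omega
    have h5 := h4 (r - 5)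
    have h6 : r - 5 + 5 = r := by omega
    have h7 : r - 5 + 4 = r - 1 := by omega
    rw [h6, h7] at h5
    rw [hn2]; exact h5
  have hn32 : 32 ≤ n := by
    rw [hn]
    calc 32 = 2 ^ 5 := by norm_num
      _ ≤ _ := Nat.pow_le_pow_right (by norm_num) hr
  obtain ⟨q, hq⟩ : ∃ q, q = r + 5 := ⟨_, rfl⟩
  have hqn : 2 ^ q = 32 * n := by rw [hq, hn, pow_add]; ring
  have hqn1 : 2 ^ (q - 1) = 16 * n := by
    have h1 : q - 1 = r + 4 := by omega
    rw [h1, hn, pow_add]; ring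
  obtain ⟨w, hw⟩ : ∃ w, w = 34 * n + 10 := ⟨_, rfl⟩
  obtain ⟨σ, hσ⟩ : ∃ σ, σ = 104 * n := ⟨_, rfl⟩
  obtain ⟨k, hk⟩ : ∃ k, k = 2 * (2048 * n) := ⟨_, rfl⟩
  have hk2 : 2 ^ (r + 12) = k := by rw [hk, hn, pow_add]; ring
  have hkM : k < 2 ^ k := Nat.lt_two_pow_self
  obtain ⟨M, hM⟩ : ∃ M, M = 2 ^ k := ⟨_, rfl⟩
  rw [hk2, ← hM, ← hn2]
  have hkM' : k < M := by rw [hM]; exact hkM
  set R1 := S1 k w σ with hR1
  set R2 := (range (2 ^ M)).filter (fun a => Dbl w a) with hR2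
  set Q : ℕ → Prop := fun r => s2 r < σ ∨ 2 ^ k < r + 4 * w with hQ
  set R3 := (range (2 ^ M)).filter (fun a => Q (a % 2 ^ k)) with hR3
  refine ⟨R1 ∪ R2 ∪ R3, ?_, ?_⟩
  · -- cardinalities
    have c1 : R1.card ≤ 2 ^ (M - n) := by
      have h1 := card_S1 (k := k) (w := w) (σ := σ) (by omega)
      rw [← hM] at h1
      have h2 : 2 ^ (M + 3 * w) ≤ 2 ^ (M - n) * 2 ^ σ := by
        rw [← pow_add]
        exact Nat.pow_le_pow_right (by norm_num) (by omega)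
      exact Nat.le_of_mul_le_mul_right (h1.trans h2) (by positivity)
    have c2 : R2.card ≤ 2 ^ (M - n + q) + 2 ^ (M - n) := by
      have h1 := card_dbl (q := q) (m := n) (W := w) (M := M)
        (by rw [hq]; omega) (by omega) (by rw [hqn]; omega) (by rw [hqn]; omega) (by omega)
      refine h1.trans (Nat.add_le_add ?_ ?_)
      · exact Nat.pow_le_pow_right (by norm_num) (by omega)
      · exact Nat.pow_le_pow_right (by norm_num) (by omega)
    have c3 : R3.card ≤ 2 ^ (M - n) := by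
      have hB : ((range (2 ^ k)).filter Q).card ≤ 2 ^ (2 * σ + 2048 * n) + 4 * w := by
        have h1 : (range (2 ^ k)).filter Q ⊆ (range (2 ^ k)).filter (fun a => s2 a < σ) ∪
            Ico (2 ^ k - 4 * w) (2 ^ k) := by
          intro a ha
          obtain ⟨ha1, ha2⟩ := Finset.mem_filter.1 ha
          rw [Finset.mem_union]
          rcases ha2 with h | h
          · exact Or.inl (Finset.mem_filter.2 ⟨ha1, h⟩)
          · right
            rw [Finset.mem_range] at ha1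
            rw [Finset.mem_Ico]
            omega
        have h2 := card_s2_lt' σ (2048 * n)
        rw [← hk] at h2
        calc _ ≤ _ := Finset.card_le_card h1
          _ ≤ _ := Finset.card_union_le _ _
          _ ≤ _ := Nat.add_le_add h2 (by rw [Nat.card_Ico]; omega)
      have h1 := card_residues (k := k) (M := M) hkM'.le Q hB
      have h2 : 4 * w ≤ 2 ^ (2 * σ + 2048 * n) := by
        have h3 : 4 * w < 2 ^ (4 * w) := Nat.lt_two_pow_self
        exact h3.le.trans (Nat.pow_le_pow_right (by norm_num) (by omega))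
      calc R3.card ≤ (2 ^ (2 * σ + 2048 * n) + 4 * w) * 2 ^ (M - k) := h1
        _ ≤ (2 ^ (2 * σ + 2048 * n) + 2 ^ (2 * σ + 2048 * n)) * 2 ^ (M - k) :=
            Nat.mul_le_mul_right _ (Nat.add_le_add_left h2 _)
        _ = 2 ^ (2 * σ + 2048 * n + 1 + (M - k)) := by rw [pow_add _ (2 * σ + 2048 * n + 1), pow_succ]; ring
        _ ≤ 2 ^ (M - n) := Nat.pow_le_pow_right (by norm_num) (by omega)
    have htot : (R1 ∪ R2 ∪ R3).card ≤ 2 ^ (M - n) * (3 + 2 ^ q) := by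
      calc (R1 ∪ R2 ∪ R3).card ≤ (R1 ∪ R2).card + R3.card := Finset.card_union_le _ _
        _ ≤ R1.card + R2.card + R3.card := Nat.add_le_add_right (Finset.card_union_le _ _) _
        _ ≤ 2 ^ (M - n) + (2 ^ (M - n + q) + 2 ^ (M - n)) + 2 ^ (M - n) :=
            Nat.add_le_add (Nat.add_le_add c1 c2) c3
        _ = _ := by rw [pow_add]; ring
    calc (R1 ∪ R2 ∪ R3).card * 2 ^ n2 ≤ 2 ^ (M - n) * (3 + 2 ^ q) * 2 ^ n2 :=
          Nat.mul_le_mul_right _ htot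
      _ ≤ 2 ^ (M - n) * (2 ^ (q + 1)) * 2 ^ n2 := by
          refine Nat.mul_le_mul_right _ (Nat.mul_le_mul_left _ ?_)
          rw [pow_succ]
          omega
      _ = 2 ^ (M - n + (q + 1) + n2) := by rw [← pow_add, ← pow_add]
      _ ≤ 2 ^ M := Nat.pow_le_pow_right (by norm_num) (by omega)
  · intro a ha
    have hr : a % 2 ^ M % 2 ^ k = a % 2 ^ k := Nat.mod_mod_of_dvd _ (pow_dvd_pow 2 hkM'.le)
    have hlt : a % 2 ^ k < 2 ^ k := Nat.mod_lt _ (by positivity)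
    have hcong : (2 : ℤ) ^ M ∣ ((a % 2 ^ M : ℕ) : ℤ) - a := by
      have h1 : ((2 ^ M : ℕ) : ℤ) ∣ ((a % 2 ^ M : ℕ) : ℤ) - a :=
        Nat.modEq_iff_dvd.1 (Nat.mod_modEq a (2 ^ M)).symm
      simpa using h1
    have hrlt : a % 2 ^ M ∈ range (2 ^ M) := Finset.mem_range.2 (Nat.mod_lt _ (by positivity))
    rw [Finset.mem_union, Finset.mem_union]
    by_cases hcase : Q (a % 2 ^ k)
    · right
      rw [hR3, Finset.mem_filter]
      refine ⟨hrlt, ?_⟩
      show Q (a % 2 ^ M % 2 ^ k)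
      rw [hr]; exact hcase
    · left
      have hcase1 : σ ≤ s2 (a % 2 ^ k) := by
        by_contra h; exact hcase (Or.inl (not_le.1 h))
      have hcase2 : a % 2 ^ k + 4 * w ≤ 2 ^ k := by
        by_contra h; exact hcase (Or.inr (not_le.1 h))
      have hvv : vv (a % 2 ^ k) (2 ^ k - a % 2 ^ k) < 2 ^ k := vv_lt (by omega)
      obtain ⟨L, h0, hL⟩ := ha.mono (K' := max (vv (a % 2 ^ k) (2 ^ k - a % 2 ^ k)) w)
        (by rw [hM]; exact max_le hvv.le (by omega))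
      have hLr : (2 : ℤ) ^ (max (vv (a % 2 ^ k) (2 ^ k - a % 2 ^ k)) w) ∣
          (FP L).eval ((a % 2 ^ M : ℕ) : ℤ) := by
        refine (dvd_eval_iff _ ?_ hcong).2 hL
        rw [hM]
        exact max_le hvv.le (by omega)
      by_cases hd : (2 : ℤ) ^ w ∣ (derivative (FP L)).eval ((a % 2 ^ M : ℕ) : ℤ)
      · right
        rw [hR2, Finset.mem_filter]
        exact ⟨hrlt, L, h0, (pow_dvd_pow 2 (le_max_right _ _)).trans hLr, hd⟩
      · left
        rw [hR1]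
        unfold S1
        rw [Finset.mem_filter, hr]
        exact ⟨by rw [← hM]; exact hrlt, hcase1, hcase2, L,
          (pow_dvd_pow 2 (le_max_left _ _)).trans hLr, hd⟩

open Classical in
theorem card_mod_le (n N : ℕ) (R : Finset ℕ) (P : ℕ → Prop)
    (h : ∀ a, P a → a % N ∈ R) : ((range n).filter P).card ≤ R.card * (n / N + 1) := by
  have h1 : (range n).filter P ⊆ R.biUnion fun r => (range n).filter (fun a => a % N = r) := by
    intro a ha
    obtain ⟨ha1, ha2⟩ := Finset.mem_filter.1 ha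
    rw [Finset.mem_biUnion]
    exact ⟨a % N, h a ha2, Finset.mem_filter.2 ⟨ha1, rfl⟩⟩
  refine (Finset.card_le_card h1).trans ?_
  refine Finset.card_biUnion_le_card_mul _ _ _ fun r _ => ?_
  have h2 : ((range n).filter (fun a => a % N = r)).card ≤ (range (n / N + 1)).card := by
    refine Finset.card_le_card_of_injOn (fun a => a / N) ?_ ?_
    · intro a ha
      obtain ⟨ha1, -⟩ := Finset.mem_filter.1 (Finset.mem_coe.1 ha)
      rw [Finset.mem_range] at ha1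
      show a / N ∈ ((range (n / N + 1) : Finset ℕ) : Set ℕ)
      rw [Finset.mem_coe, Finset.mem_range]
      exact Nat.lt_succ_of_le (Nat.div_le_div_right ha1.le)
    · intro a ha b hb hab
      obtain ⟨-, ha2⟩ := Finset.mem_filter.1 (Finset.mem_coe.1 ha)
      obtain ⟨-, hb2⟩ := Finset.mem_filter.1 (Finset.mem_coe.1 hb)
      have hab : a / N = b / N := hab
      rw [← Nat.div_add_mod a N, ← Nat.div_add_mod b N, hab, ha2, hb2]
  rwa [Finset.card_range] at h2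

open Classical in
/-- The tail bound, for large `T`. -/
theorem tail_large {r M T x : ℕ} (hr : 5 ≤ r) (hM : M = 2 ^ 2 ^ (r + 12)) (hMT : M ≤ T)
    (hT : T ≤ 2 ^ 2 ^ (r + 13)) (hx : 2 ^ T ≤ x) :
    (((range x).filter (AliveTo T)).card : ℝ) ≤ x / (T : ℝ) ^ ((1 : ℝ) / 2 ^ 15) := by
  obtain ⟨R, hR1, hR2⟩ := alive_residues (r := r) hr
  rw [← hM] at hR1 hR2
  have hMx : 2 ^ M ≤ x := (Nat.pow_le_pow_right (by norm_num) hMT).trans hx
  have hcount := card_mod_le x (2 ^ M) R (AliveTo T) (fun a ha => hR2 a (ha.mono hMT))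
  have hMpos : 0 < M := by rw [hM]; positivity
  have hx0 : (0 : ℝ) < x := by
    have : 0 < x := lt_of_lt_of_le (by positivity) hMx
    exact_mod_cast this
  have hMx' : (2 : ℝ) ^ M ≤ x := by exact_mod_cast hMx
  -- the count
  have h3 : (((range x).filter (AliveTo T)).card : ℝ) ≤ x * (2 / 2 ^ 2 ^ (r - 1)) := by
    have h4 : (R.card : ℝ) ≤ 2 ^ M / 2 ^ 2 ^ (r - 1) := by
      rw [le_div_iff₀ (by positivity)]
      exact_mod_cast hR1
    calc (((range x).filter (AliveTo T)).card : ℝ) ≤ ((R.card * (x / 2 ^ M + 1) : ℕ) : ℝ) := by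
          exact_mod_cast hcount
      _ = (R.card : ℝ) * (((x / 2 ^ M : ℕ) : ℝ) + 1) := by push_cast; ring
      _ ≤ (R.card : ℝ) * (x / 2 ^ M + x / 2 ^ M) := by
        refine mul_le_mul_of_nonneg_left ?_ (Nat.cast_nonneg _)
        have h5 := @Nat.cast_div_le ℝ _ _ _ x (2 ^ M)
        push_cast at h5
        have h6 : (1 : ℝ) ≤ x / 2 ^ M := by rw [le_div_iff₀ (by positivity)]; linarith
        linarith
      _ ≤ (2 ^ M / 2 ^ 2 ^ (r - 1)) * (x / 2 ^ M + x / 2 ^ M) :=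
        mul_le_mul_of_nonneg_right h4 (by positivity)
      _ = _ := by field_simp; ring
  refine h3.trans ?_
  rw [div_eq_mul_inv (x : ℝ)]
  refine mul_le_mul_of_nonneg_left ?_ hx0.le
  have hT0 : (0 : ℝ) < T := by exact_mod_cast lt_of_lt_of_le hMpos hMT
  have hT' : (T : ℝ) ≤ 2 ^ 2 ^ (r + 13) := by exact_mod_cast hT
  have hpow : (T : ℝ) ^ ((1 : ℝ) / 2 ^ 15) ≤ 2 ^ 2 ^ (r - 2) := by
    have h5 : (T : ℝ) ^ ((1 : ℝ) / 2 ^ 15) ≤ ((2 : ℝ) ^ 2 ^ (r + 13)) ^ ((1 : ℝ) / 2 ^ 15) :=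
      Real.rpow_le_rpow hT0.le hT' (by positivity)
    refine h5.trans (le_of_eq ?_)
    rw [← Real.rpow_natCast (2 : ℝ) (2 ^ (r + 13)), ← Real.rpow_natCast (2 : ℝ) (2 ^ (r - 2)),
      ← Real.rpow_mul (by norm_num)]
    congr 1
    push_cast
    have h6 : (2 : ℝ) ^ (r + 13) = 2 ^ (r - 2) * 2 ^ 15 := by
      rw [← pow_add]; congr 1; omega
    rw [h6]
    field_simp
  have hpos : (0 : ℝ) < (T : ℝ) ^ ((1 : ℝ) / 2 ^ 15) := Real.rpow_pos_of_pos hT0 _
  have hinv : ((2 : ℝ) ^ 2 ^ (r - 2))⁻¹ ≤ ((T : ℝ) ^ ((1 : ℝ) / 2 ^ 15))⁻¹ :=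
    inv_anti₀ hpos hpow
  refine le_trans ?_ hinv
  have h7 : (2 : ℝ) ^ 2 ^ (r - 1) = 2 ^ 2 ^ (r - 2) * 2 ^ 2 ^ (r - 2) := by
    rw [← pow_add]
    congr 1
    have : r - 1 = (r - 2) + 1 := by omega
    rw [this, pow_succ]; ring
  rw [h7, div_eq_mul_inv, mul_inv]
  have h8 : (2 : ℝ) * (2 ^ 2 ^ (r - 2))⁻¹ ≤ 1 := by
    rw [← div_eq_mul_inv, div_le_one (by positivity)]
    calc (2 : ℝ) = 2 ^ 1 := by norm_num
      _ ≤ 2 ^ 2 ^ (r - 2) := pow_le_pow_right₀ (by norm_num) (Nat.one_le_two_pow)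
  calc (2 : ℝ) * ((2 ^ 2 ^ (r - 2))⁻¹ * (2 ^ 2 ^ (r - 2))⁻¹) =
      2 * (2 ^ 2 ^ (r - 2))⁻¹ * (2 ^ 2 ^ (r - 2))⁻¹ := by ring
    _ ≤ 1 * (2 ^ 2 ^ (r - 2))⁻¹ := mul_le_mul_of_nonneg_right h8 (by positivity)
    _ = _ := one_mul _

open Classical in
/-- The tail bound. -/
theorem tail {T x : ℕ} (hT : 1 ≤ T) (hx : 2 ^ T ≤ x) :
    (((range x).filter (AliveTo T)).card : ℝ) ≤ 16 * (x / (T : ℝ) ^ ((1 : ℝ) / 2 ^ 15)) := by
  have hT0 : (0 : ℝ) < T := by exact_mod_cast hT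
  have hpos : (0 : ℝ) < (T : ℝ) ^ ((1 : ℝ) / 2 ^ 15) := Real.rpow_pos_of_pos hT0 _
  obtain ⟨z, hz⟩ : ∃ z, z = Nat.log 2 T := ⟨_, rfl⟩
  have e1 : 2 ^ z ≤ T := by rw [hz]; exact Nat.pow_log_le_self 2 (by omega)
  have e1' : T < 2 ^ (z + 1) := by rw [hz]; exact Nat.lt_pow_succ_log_self (by norm_num) T
  by_cases hbig : 2 ^ 17 ≤ z
  · have hz0 : z ≠ 0 := by
      rintro rfl
      norm_num at hbig
    obtain ⟨s, hs⟩ : ∃ s, s = Nat.log 2 z := ⟨_, rfl⟩
    have e2 : 2 ^ s ≤ z := by rw [hs]; exact Nat.pow_log_le_self 2 hz0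
    have e2' : z < 2 ^ (s + 1) := by rw [hs]; exact Nat.lt_pow_succ_log_self (by norm_num) z
    have hs17 : 17 ≤ s := by
      rw [hs]; exact Nat.le_log_of_pow_le (by norm_num) hbig
    obtain ⟨r, rfl⟩ : ∃ r, s = r + 12 := ⟨s - 12, by omega⟩
    have h1 := tail_large (r := r) (M := 2 ^ 2 ^ (r + 12)) (T := T) (x := x) (by omega) rfl
      ((Nat.pow_le_pow_right (by norm_num) e2).trans e1)
      (e1'.le.trans (Nat.pow_le_pow_right (by norm_num) e2')) hx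
    have h2 : (0 : ℝ) ≤ x / (T : ℝ) ^ ((1 : ℝ) / 2 ^ 15) := by positivity
    linarith
  · have hz' : z + 1 ≤ 2 ^ 17 := by omega
    have h1 : (((range x).filter (AliveTo T)).card : ℝ) ≤ x := by
      have h2 : ((range x).filter (AliveTo T)).card ≤ x := by
        refine (Finset.card_filter_le _ _).trans ?_
        rw [Finset.card_range]
      exact_mod_cast h2
    have hpow : (T : ℝ) ^ ((1 : ℝ) / 2 ^ 15) ≤ 16 := by
      have h3 : (T : ℝ) ≤ (2 : ℝ) ^ (z + 1) := by exact_mod_cast e1'.le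
      have h4 : (T : ℝ) ^ ((1 : ℝ) / 2 ^ 15) ≤ ((2 : ℝ) ^ (z + 1)) ^ ((1 : ℝ) / 2 ^ 15) :=
        Real.rpow_le_rpow hT0.le h3 (by positivity)
      refine h4.trans ?_
      rw [← Real.rpow_natCast (2 : ℝ) (z + 1), ← Real.rpow_mul (by norm_num)]
      have h5 : ((z + 1 : ℕ) : ℝ) * (1 / 2 ^ 15) ≤ 4 := by
        have h6 : ((z + 1 : ℕ) : ℝ) ≤ 2 ^ 17 := by exact_mod_cast hz'
        calc ((z + 1 : ℕ) : ℝ) * (1 / 2 ^ 15) ≤ 2 ^ 17 * (1 / 2 ^ 15) :=
              mul_le_mul_of_nonneg_right h6 (by positivity)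
          _ = 4 := by norm_num
      calc (2 : ℝ) ^ (((z + 1 : ℕ) : ℝ) * (1 / 2 ^ 15)) ≤ (2 : ℝ) ^ (4 : ℝ) :=
            Real.rpow_le_rpow_of_exponent_le (by norm_num) h5
        _ = 16 := by norm_num
    have h7 : (x : ℝ) ≤ 16 * (x / (T : ℝ) ^ ((1 : ℝ) / 2 ^ 15)) := by
      rw [← mul_div_assoc, le_div_iff₀ hpos]
      have hx0 : (0 : ℝ) ≤ x := Nat.cast_nonneg _
      nlinarith
    linarith

end Pool.Agent.Helper58.FS
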