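import Pool.Agent.Helper58.FS.Types

/-!
# Near double roots
-/

set_option autoImplicit false

open Polynomial Finset

namespace Pool.Agent.Helper58.FS

theorem prod_not_dvd (s : Finset ℕ) (f : ℕ → ℤ) (e : ℕ → ℕ)
    (h : ∀ i ∈ s, ¬ (2 : ℤ) ^ (e i + 1) ∣ f i) : ¬ (2 : ℤ) ^ (∑ i ∈ s, e i + 1) ∣ ∏ i ∈ s, f i := by
  classical
  induction s using Finset.induction_on with
  | empty => simp
  | insert i s hi ih =>
    rw [Finset.sum_insert hi, Finset.prod_insert hi]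
    intro h1
    have h2 := two_pow_dvd_right h1 (h i (Finset.mem_insert_self i s))
    have h3 : e i + ∑ x ∈ s, e x + 1 + 1 - (e i + 1) = ∑ x ∈ s, e x + 1 := by omega
    rw [h3] at h2
    exact ih (fun j hj => h j (Finset.mem_insert_of_mem hj)) h2

/-- the exponent of two in `A l` -/
def lam (a0 l : ℕ) : ℕ := ∑ i ∈ (Icc 1 l).erase 2, padicValNat 2 (a0 + i)

section

variable {m t a0 : ℕ} (hgood : ∀ i ∈ Icc 1 t, ¬ 2 ^ m ∣ a0 + i)
include hgood

theorem ee_lt {i : ℕ} (hi : i ∈ Icc 1 t) : padicValNat 2 (a0 + i) < m := by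
  by_contra h
  push Not at h
  have h1 := (Finset.mem_Icc.1 hi).1
  exact hgood i hi ((padicValNat_dvd_iff_le (by omega)).2 h)

theorem ee_dvd {i : ℕ} (hi : i ∈ Icc 1 t) {a : ℤ} (ha : (2 : ℤ) ^ m ∣ a - a0) :
    (2 : ℤ) ^ padicValNat 2 (a0 + i) ∣ a + i ∧ ¬ (2 : ℤ) ^ (padicValNat 2 (a0 + i) + 1) ∣ a + i := by
  have h1 := ee_lt hgood hi
  have h0 := (Finset.mem_Icc.1 hi).1
  have h2 : a + i = (a - a0) + ((a0 + i : ℕ) : ℤ) := by push_cast; ring
  rw [h2]
  constructor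
  · refine dvd_add ((pow_dvd_pow 2 (by omega)).trans ha) ?_
    exact_mod_cast (pow_padicValNat_dvd : 2 ^ padicValNat 2 (a0 + i) ∣ a0 + i)
  · intro h3
    have h4 : (2 : ℤ) ^ (padicValNat 2 (a0 + i) + 1) ∣ a - a0 := (pow_dvd_pow 2 (by omega)).trans ha
    have h5 := (dvd_add_right h4).1 h3
    have h6 : 2 ^ (padicValNat 2 (a0 + i) + 1) ∣ a0 + i := by exact_mod_cast h5
    exact pow_succ_padicValNat_not_dvd (by omega) h6

theorem A_val {l : ℕ} (hl : l ≤ t) {a : ℤ} (ha : (2 : ℤ) ^ m ∣ a - a0) :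
    (2 : ℤ) ^ lam a0 l ∣ (A l).eval a ∧ ¬ (2 : ℤ) ^ (lam a0 l + 1) ∣ (A l).eval a := by
  have hsub : ∀ i ∈ (Icc 1 l).erase 2, i ∈ Icc 1 t := by
    intro i hi
    have h1 := Finset.mem_Icc.1 (Finset.mem_of_mem_erase hi)
    exact Finset.mem_Icc.2 ⟨h1.1, h1.2.trans hl⟩
  unfold A lam
  rw [eval_prod]
  constructor
  · rw [← Finset.prod_pow_eq_pow_sum]
    refine Finset.prod_dvd_prod_of_dvd _ _ fun i hi => ?_
    rw [lin_eval]
    exact (ee_dvd hgood (hsub i hi) ha).1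
  · refine prod_not_dvd _ _ _ fun i hi => ?_
    rw [lin_eval]
    exact (ee_dvd hgood (hsub i hi) ha).2

theorem A_der {l : ℕ} (hl : l ≤ t) {a : ℤ} (ha : (2 : ℤ) ^ m ∣ a - a0) :
    (2 : ℤ) ^ (lam a0 l - m) ∣ (derivative (A l)).eval a := by
  have hsub : ∀ i ∈ (Icc 1 l).erase 2, i ∈ Icc 1 t := by
    intro i hi
    have h1 := Finset.mem_Icc.1 (Finset.mem_of_mem_erase hi)
    exact Finset.mem_Icc.2 ⟨h1.1, h1.2.trans hl⟩
  unfold A lam
  rw [derivative_prod_finset, eval_finsetSum]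
  refine Finset.dvd_sum fun i hi => ?_
  rw [eval_mul, lin_derivative, eval_one, mul_one, eval_prod]
  have h1 : ∑ j ∈ (Icc 1 l).erase 2, padicValNat 2 (a0 + j) - m ≤
      ∑ j ∈ ((Icc 1 l).erase 2).erase i, padicValNat 2 (a0 + j) := by
    rw [← Finset.add_sum_erase _ _ hi]
    have := ee_lt hgood (hsub i hi)
    omega
  refine (pow_dvd_pow 2 h1).trans ?_
  rw [← Finset.prod_pow_eq_pow_sum]
  refine Finset.prod_dvd_prod_of_dvd _ _ fun j hj => ?_
  rw [lin_eval]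
  exact (ee_dvd hgood (hsub j (Finset.mem_of_mem_erase hj)) ha).1

theorem A_large {l l' : ℕ} (hl : l ≤ t) (hll : l ≤ l') {a : ℤ} (ha : (2 : ℤ) ^ m ∣ a - a0) :
    (2 : ℤ) ^ lam a0 l ∣ (A l').eval a ∧ (2 : ℤ) ^ (lam a0 l - m) ∣ (derivative (A l')).eval a := by
  obtain ⟨R, hR⟩ := A_dvd hll
  rw [hR, derivative_mul, eval_mul, eval_add, eval_mul, eval_mul]
  have h1 := (A_val hgood hl ha).1
  have h2 := A_der hgood hl ha
  exact ⟨h1.mul_right _, dvd_add (h2.mul_right _)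
    (((pow_dvd_pow 2 (Nat.sub_le _ _)).trans h1).mul_right _)⟩

theorem lam_le : lam a0 t ≤ t * m := by
  unfold lam
  calc _ ≤ ∑ i ∈ (Icc 1 t).erase 2, m :=
        Finset.sum_le_sum fun i hi => (ee_lt hgood (Finset.mem_of_mem_erase hi)).le
    _ = ((Icc 1 t).erase 2).card * m := by rw [Finset.sum_const, smul_eq_mul]
    _ ≤ (Icc 1 t).card * m := Nat.mul_le_mul_right _ (Finset.card_erase_le)
    _ = t * m := by rw [Nat.card_Icc]; simp

end

theorem lam_mono {a0 l l' : ℕ} (h : l ≤ l') : lam a0 l ≤ lam a0 l' := by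
  unfold lam
  exact Finset.sum_le_sum_of_subset (Finset.erase_subset_erase _ (Finset.Icc_subset_Icc_right h))

theorem lam_succ {a0 l : ℕ} (hl : 2 ≤ l) : lam a0 (l + 1) = lam a0 l + padicValNat 2 (a0 + (l + 1)) := by
  unfold lam
  have h1 : (Icc 1 (l + 1)).erase 2 = insert (l + 1) ((Icc 1 l).erase 2) := by
    ext i
    simp only [Finset.mem_erase, Finset.mem_Icc, Finset.mem_insert]
    omega
  rw [h1, Finset.sum_insert (by simp), add_comm]

theorem one_le_val {n : ℕ} (h : 2 ∣ n) (h0 : n ≠ 0) : 1 ≤ padicValNat 2 n := by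
  have := (padicValNat_dvd_iff_le (p := 2) (n := 1) h0).1 (by simpa using h)
  exact this

theorem lam_add_two {a0 l : ℕ} (h2 : 2 ∣ a0) (hl : 2 ∣ l) (hl2 : 2 ≤ l) :
    lam a0 l + 1 ≤ lam a0 (l + 2) := by
  have h1 := lam_succ (a0 := a0) (l := l + 1) (by omega)
  have h3 := lam_mono (a0 := a0) (Nat.le_succ l)
  have h4 := one_le_val (n := a0 + (l + 1 + 1)) (by omega) (by omega)
  have h5 : l + 1 + 1 = l + 2 := by ring
  rw [h5] at h1 h4
  have h6 : l.succ = l + 1 := rfl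
  rw [h6] at h3
  omega

theorem lam_lower {a0 : ℕ} (h2 : 2 ∣ a0) (n : ℕ) : n ≤ lam a0 (2 * n + 2) := by
  induction n with
  | zero => exact Nat.zero_le _
  | succ n ih =>
    have h1 := lam_add_two h2 (l := 2 * n + 2) (by omega) (by omega)
    have h3 : 2 * (n + 1) + 2 = 2 * n + 2 + 2 := by ring
    rw [h3]
    omega

theorem lam_add {a0 t : ℕ} (ht : 2 ≤ t) : lam a0 t + padicValNat 2 (a0 + 2) = vv a0 t := by
  unfold lam vv
  exact Finset.sum_erase_add _ _ (Finset.mem_Icc.2 ⟨by norm_num, ht⟩)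

theorem vv_ge (a q : ℕ) : 2 ^ q ≤ vv a (2 ^ q) + 1 := by
  have h1 := vv_factorial a (2 ^ q)
  have h2 : a.factorial * (2 ^ q).factorial ∣ (a + 2 ^ q).factorial :=
    Nat.factorial_mul_factorial_dvd_factorial_add a (2 ^ q)
  have h3 : padicValNat 2 (a.factorial * (2 ^ q).factorial) ≤ padicValNat 2 (a + 2 ^ q).factorial :=
    (padicValNat_dvd_iff_le (Nat.factorial_ne_zero _)).1 (pow_padicValNat_dvd.trans h2)
  rw [padicValNat.mul (Nat.factorial_ne_zero _) (Nat.factorial_ne_zero _)] at h3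
  have h4 := val_factorial (2 ^ q)
  rw [s2_two_pow] at h4
  omega

/-- the toggle positions -/
def TT (m t : ℕ) : Finset ℕ := (range t).filter (fun l => 2 ∣ l ∧ 4 * m + 8 ≤ l ∧ l + 2 ≤ t)

theorem card_TT {m t : ℕ} (ht : 2 ∣ t) : (t - 4 * m - 8) / 2 ≤ (TT m t).card := by
  have h1 : (range ((t - 4 * m - 8) / 2)).card ≤ (TT m t).card := by
    refine Finset.card_le_card_of_injOn (fun j => 4 * m + 8 + 2 * j) ?_ ?_
    · intro j hj
      have hj := Finset.mem_range.1 (Finset.mem_coe.1 hj)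
      show 4 * m + 8 + 2 * j ∈ ((TT m t : Finset ℕ) : Set ℕ)
      rw [Finset.mem_coe]
      unfold TT
      rw [Finset.mem_filter, Finset.mem_range]
      refine ⟨?_, ?_, ?_, ?_⟩
      · omega
      · exact ⟨2 * m + 4 + j, by ring⟩
      · omega
      · omega
    · intro i _ j _ hij
      simp only at hij
      omega
  rwa [Finset.card_range] at h1

/-- the difference of two `GP` -/
theorem GP_sub (L L' : Finset ℕ) : GP L - GP L' =
    ∑ x ∈ L.filter (2 ≤ ·) \ L'.filter (2 ≤ ·), A x -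
      ∑ x ∈ L'.filter (2 ≤ ·) \ L.filter (2 ≤ ·), A x := by
  rw [Finset.sum_sdiff_sub_sum_sdiff]
  unfold GP
  ring

/-- the data of a near double root -/
structure Near (m t a0 : ℕ) (L : Finset ℕ) (a : ℤ) : Prop where
  type : T4 L
  cls : (2 : ℤ) ^ m ∣ a - a0
  mod8 : a % 8 = 6
  val : (2 : ℤ) ^ lam a0 t ∣ (GP L).eval a
  der : (2 : ℤ) ^ (lam a0 t - m) ∣ (derivative (GP L)).eval a

theorem toggle {m t a0 : ℕ} (hgood : ∀ i ∈ Icc 1 t, ¬ 2 ^ m ∣ a0 + i) (hm : 3 ≤ m)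
    (h2a : 2 ∣ a0) {L L' : Finset ℕ} {a b : ℤ} (hN : Near m t a0 L a) (hN' : Near m t a0 L' b)
    {l : ℕ} (hlT : l ∈ TT m t) (hl : l ∈ L) (hl' : l ∉ L')
    (hdiff : ∀ x, (x ∈ L ∧ x ∉ L') ∨ (x ∈ L' ∧ x ∉ L) → x ∈ TT m t ∧ l ≤ x) : False := by
  obtain ⟨hlt, hl2, hlm, hlt2⟩ := Finset.mem_filter.1 hlT
  rw [Finset.mem_range] at hlt
  -- size of lam l
  have hlam1 : 2 * m + 3 ≤ lam a0 l := by
    have h1 := lam_lower h2a (2 * m + 3)
    exact h1.trans (lam_mono (by omega))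
  have hlam2 : lam a0 l + 1 ≤ lam a0 t :=
    (lam_add_two h2a hl2 (by omega)).trans (lam_mono (by omega))
  have hx : ∀ x, (x ∈ L ∧ x ∉ L') ∨ (x ∈ L' ∧ x ∉ L) → x ≠ l → l + 2 ≤ x ∧ x ≤ t := by
    intro x hx hxl
    obtain ⟨h1, h3⟩ := hdiff x hx
    obtain ⟨h4, h5, -, -⟩ := Finset.mem_filter.1 h1
    rw [Finset.mem_range] at h4
    omega
  have hs1 : ∀ x ∈ L.filter (2 ≤ ·) \ L'.filter (2 ≤ ·), x ∈ L ∧ x ∉ L' := by
    intro x hx
    rw [Finset.mem_sdiff, Finset.mem_filter, Finset.mem_filter] at hx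
    exact ⟨hx.1.1, fun h => hx.2 ⟨h, hx.1.2⟩⟩
  have hs2 : ∀ x ∈ L'.filter (2 ≤ ·) \ L.filter (2 ≤ ·), x ∈ L' ∧ x ∉ L := by
    intro x hx
    rw [Finset.mem_sdiff, Finset.mem_filter, Finset.mem_filter] at hx
    exact ⟨hx.1.1, fun h => hx.2 ⟨h, hx.1.2⟩⟩
  have hlmem : l ∈ L.filter (2 ≤ ·) \ L'.filter (2 ≤ ·) := by
    rw [Finset.mem_sdiff, Finset.mem_filter, Finset.mem_filter]
    exact ⟨⟨hl, by omega⟩, fun h => hl' h.1⟩
  -- the difference at b
  have hd1 : (2 : ℤ) ^ (lam a0 l + 1) ∣ (GP L).eval b - (GP L').eval b - (A l).eval b := by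
    rw [← eval_sub, GP_sub, ← Finset.add_sum_erase _ _ hlmem, eval_sub, eval_add,
      eval_finsetSum, eval_finsetSum]
    have h1 : (2 : ℤ) ^ (lam a0 l + 1) ∣
        ∑ x ∈ (L.filter (2 ≤ ·) \ L'.filter (2 ≤ ·)).erase l, (A x).eval b := by
      refine Finset.dvd_sum fun x hx' => ?_
      obtain ⟨hne, hmem⟩ := Finset.mem_erase.1 hx'
      obtain ⟨h3, h4⟩ := hx x (Or.inl (hs1 x hmem)) hne
      exact (pow_dvd_pow 2 ((lam_add_two h2a hl2 (by omega)).trans (lam_mono h3))).trans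
        (A_val hgood h4 hN'.cls).1
    have h2 : (2 : ℤ) ^ (lam a0 l + 1) ∣
        ∑ x ∈ L'.filter (2 ≤ ·) \ L.filter (2 ≤ ·), (A x).eval b := by
      refine Finset.dvd_sum fun x hmem => ?_
      have hne : x ≠ l := by
        rintro rfl
        exact (hs2 x hmem).2 hl
      obtain ⟨h3, h4⟩ := hx x (Or.inr (hs2 x hmem)) hne
      exact (pow_dvd_pow 2 ((lam_add_two h2a hl2 (by omega)).trans (lam_mono h3))).trans
        (A_val hgood h4 hN'.cls).1
    have h3 := dvd_sub h1 h2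
    have h4 : ∀ u v w : ℤ, u + v - w - u = v - w := by intros; ring
    rw [h4]
    exact h3
  have hd2 : (2 : ℤ) ^ (lam a0 l - m) ∣
      (derivative (GP L)).eval b - (derivative (GP L')).eval b := by
    rw [← eval_sub, ← derivative_sub, GP_sub, derivative_sub, derivative_sum, derivative_sum,
      eval_sub, eval_finsetSum, eval_finsetSum]
    refine dvd_sub (Finset.dvd_sum fun x hx' => ?_) (Finset.dvd_sum fun x hx' => ?_)
    · have h3 := (hdiff x (Or.inl (hs1 x hx'))).2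
      exact (A_large hgood (by omega) h3 hN'.cls).2
    · have h3 := (hdiff x (Or.inr (hs2 x hx'))).2
      exact (A_large hgood (by omega) h3 hN'.cls).2
  -- separation
  have h8 : (8 : ℤ) ∣ b - a := by
    have h1 := dvd_sub hN'.cls hN.cls
    have h3 : b - a0 - (a - a0) = b - a := by ring
    rw [h3] at h1
    have h4 : (2 : ℤ) ^ 3 ∣ 2 ^ m := pow_dvd_pow 2 hm
    have h5 : (2 : ℤ) ^ 3 = 8 := by norm_num
    rw [← h5]
    exact h4.trans h1
  have h16 : (16 : ℤ) ∣ (GP L).eval a := by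
    have h4 : (2 : ℤ) ^ 4 ∣ 2 ^ lam a0 t := pow_dvd_pow 2 (by omega)
    have h5 : (2 : ℤ) ^ 4 = 16 := by norm_num
    rw [← h5]
    exact h4.trans hN.val
  have hb' : (2 : ℤ) ^ (lam a0 l - m) ∣ (derivative (GP L)).eval b := by
    have h1 : (2 : ℤ) ^ (lam a0 l - m) ∣ (derivative (GP L')).eval b :=
      (pow_dvd_pow 2 (by omega)).trans hN'.der
    have h3 := dvd_add hd2 h1
    simpa using h3
  have hsep := sep_critical hN.type hN.mod8 h8 h16
    ((pow_dvd_pow 2 (by omega : lam a0 l - m ≤ lam a0 t - m)).trans hN.der) hb'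
  -- Taylor
  obtain ⟨k, hk⟩ := (GP L).binomExpansion a (b - a)
  have h3 : a + (b - a) = b := by ring
  rw [h3] at hk
  have t1 : (2 : ℤ) ^ (lam a0 l + 1) ∣ (GP L).eval a := (pow_dvd_pow 2 hlam2).trans hN.val
  have t2 : (2 : ℤ) ^ (lam a0 l + 1) ∣ (GP L').eval b := (pow_dvd_pow 2 hlam2).trans hN'.val
  have t3 : (2 : ℤ) ^ (lam a0 l + 1) ∣ (derivative (GP L)).eval a * (b - a) := by
    have h4 : (2 : ℤ) ^ (lam a0 l + 1) ∣ 2 ^ (lam a0 t - m) * 2 ^ (lam a0 l - m + 1 - 2) := by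
      rw [← pow_add]
      exact pow_dvd_pow 2 (by omega)
    exact h4.trans (mul_dvd_mul hN.der hsep)
  have t4 : (2 : ℤ) ^ (lam a0 l + 1) ∣ k * (b - a) ^ 2 := by
    have h4 : (2 : ℤ) ^ (lam a0 l + 1) ∣ (2 ^ (lam a0 l - m + 1 - 2)) ^ 2 := by
      rw [← pow_mul]
      exact pow_dvd_pow 2 (by omega)
    exact (h4.trans (pow_dvd_pow_of_dvd hsep 2)).mul_left _
  have t5 : (2 : ℤ) ^ (lam a0 l + 1) ∣ (A l).eval b := by
    have h4 : (A l).eval b = ((GP L).eval a + (derivative (GP L)).eval a * (b - a) +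
        k * (b - a) ^ 2) - (GP L').eval b - ((GP L).eval b - (GP L').eval b - (A l).eval b) := by
      rw [hk]; ring
    rw [h4]
    exact dvd_sub (dvd_sub (dvd_add (dvd_add t1 t3) t4) t2) hd1
  exact (A_val hgood (by omega) hN'.cls).2 t5

open Classical in
/-- admissible sets for near double roots -/
noncomputable def Adm2 (m t a0 : ℕ) : Finset (Finset ℕ) :=
  (range t).powerset.filter fun L => ∃ a : ℤ, Near m t a0 L a

open Classical in
theorem card_adm2 {m t a0 : ℕ} (hgood : ∀ i ∈ Icc 1 t, ¬ 2 ^ m ∣ a0 + i) (hm : 3 ≤ m)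
    (h2a : 2 ∣ a0) : (Adm2 m t a0).card ≤ 2 ^ (t - (TT m t).card) := by
  have hsub : TT m t ⊆ range t := Finset.filter_subset _ _
  have hcard : (range t \ TT m t).powerset.card = 2 ^ (t - (TT m t).card) := by
    rw [Finset.card_powerset, Finset.card_sdiff_of_subset hsub, Finset.card_range]
  rw [← hcard]
  refine Finset.card_le_card_of_injOn (fun L => L \ TT m t) ?_ ?_
  · intro L hL
    rw [Finset.mem_coe] at hL
    obtain ⟨h1, -⟩ := Finset.mem_filter.1 hL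
    rw [Finset.mem_coe, Finset.mem_powerset]
    exact Finset.sdiff_subset_sdiff (Finset.mem_powerset.1 h1) (Finset.Subset.refl _)
  · intro L hL L' hL' hLL
    rw [Finset.mem_coe] at hL hL'
    obtain ⟨-, a, ha⟩ := Finset.mem_filter.1 hL
    obtain ⟨-, b, hb⟩ := Finset.mem_filter.1 hL'
    simp only at hLL
    by_contra hne
    have hS : (symmDiff L L').Nonempty := by
      rw [Finset.nonempty_iff_ne_empty]
      intro h
      exact hne (symmDiff_eq_bot.1 h)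
    have hST : ∀ x ∈ symmDiff L L', x ∈ TT m t := by
      intro x hx
      by_contra hxT
      rw [Finset.mem_symmDiff] at hx
      rcases hx with ⟨h1, h2⟩ | ⟨h1, h2⟩
      · have h3 : x ∈ L \ TT m t := Finset.mem_sdiff.2 ⟨h1, hxT⟩
        rw [hLL] at h3
        exact h2 (Finset.mem_sdiff.1 h3).1
      · have h3 : x ∈ L' \ TT m t := Finset.mem_sdiff.2 ⟨h1, hxT⟩
        rw [← hLL] at h3
        exact h2 (Finset.mem_sdiff.1 h3).1
    have hmin := Finset.min'_mem _ hS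
    have hle : ∀ x, (x ∈ L ∧ x ∉ L') ∨ (x ∈ L' ∧ x ∉ L) →
        x ∈ TT m t ∧ (symmDiff L L').min' hS ≤ x := by
      intro x hx
      have h1 : x ∈ symmDiff L L' := Finset.mem_symmDiff.2 hx
      exact ⟨hST x h1, Finset.min'_le _ _ h1⟩
    rcases Finset.mem_symmDiff.1 hmin with ⟨h1, h2⟩ | ⟨h1, h2⟩
    · exact toggle hgood hm h2a ha hb (hST _ hmin) h1 h2 hle
    · exact toggle hgood hm h2a hb ha (hST _ hmin) h1 h2 fun x hx => hle x hx.symm

end Pool.Agent.Helper58.FS
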