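import Pool.Agent.Helper58.FS.Basic

/-!
# First moment: roots with a derivative not divisible by `2 ^ w`
-/

set_option autoImplicit false

open Polynomial Finset

namespace Pool.Agent.Helper58.FS

/-- binary digit sum -/
def s2 (a : ℕ) : ℕ := (Nat.digits 2 a).sum

theorem s2_le (a : ℕ) : s2 a ≤ a := Nat.digit_sum_le 2 a

theorem s2_two_mul (a : ℕ) : s2 (2 * a) = s2 a := by
  unfold s2
  rcases Nat.eq_zero_or_pos a with h | h
  · simp [h]
  · rw [Nat.digits_def' (by norm_num) (by omega)]; simp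

theorem s2_two_mul_add (a : ℕ) : s2 (2 * a + 1) = s2 a + 1 := by
  unfold s2
  rw [Nat.digits_def' (by norm_num) (by omega)]
  have h1 : (2 * a + 1) % 2 = 1 := by omega
  have h2 : (2 * a + 1) / 2 = a := by omega
  rw [h1, h2]; simp; ring

theorem s2_two_pow (k : ℕ) : s2 (2 ^ k) = 1 := by
  induction k with
  | zero => simp [s2]
  | succ k ih => rw [pow_succ, mul_comm, s2_two_mul, ih]

theorem val_factorial (n : ℕ) : padicValNat 2 n.factorial + s2 n = n := by
  have h := sub_one_mul_padicValNat_factorial (p := 2) n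
  have h2 := s2_le n
  unfold s2 at h2 ⊢
  omega

/-- the 2-adic valuation of `(a+1)...(a+t)` -/
def vv (a t : ℕ) : ℕ := ∑ i ∈ Icc 1 t, padicValNat 2 (a + i)

theorem vv_factorial (a t : ℕ) :
    padicValNat 2 (a + t).factorial = padicValNat 2 a.factorial + vv a t := by
  induction t with
  | zero => simp [vv]
  | succ t ih =>
    have h1 : vv a (t + 1) = vv a t + padicValNat 2 (a + (t + 1)) := by
      unfold vv
      rw [Finset.sum_Icc_succ_top (by omega)]
    rw [h1, ← add_assoc a t 1, Nat.factorial_succ,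
      padicValNat.mul (by omega) (Nat.factorial_ne_zero _), ih]
    ring

theorem vv_add {k a t : ℕ} (h : a + t = 2 ^ k) : vv a t + a + 1 = 2 ^ k + s2 a := by
  have h1 := vv_factorial a t
  have h2 := val_factorial a
  have h3 := val_factorial (2 ^ k)
  rw [s2_two_pow] at h3
  rw [h] at h1
  omega

theorem vv_lt {k a t : ℕ} (h : a + t = 2 ^ k) : vv a t < 2 ^ k := by
  have h1 := vv_add h
  have h2 := s2_le a
  omega

theorem le_vv {k a t : ℕ} (h : a + t = 2 ^ k) (ht : 1 ≤ t) : k ≤ vv a t := by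
  have h1 : padicValNat 2 (a + t) ≤ vv a t := by
    unfold vv
    exact Finset.single_le_sum (f := fun i => padicValNat 2 (a + i)) (fun i _ => Nat.zero_le _)
      (Finset.mem_Icc.2 ⟨ht, le_rfl⟩)
  rw [h, padicValNat.prime_pow] at h1
  exact h1

theorem asc_eval (l : ℕ) (a : ℤ) : (asc l).eval a = ∏ i ∈ Icc 1 l, (a + i) := by
  unfold asc
  rw [eval_prod]
  exact Finset.prod_congr rfl fun i _ => lin_eval i a

theorem vv_dvd {k a0 t : ℕ} (h : a0 + t = 2 ^ k) {a : ℤ} (ha : (2 : ℤ) ^ k ∣ a - a0) :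
    (2 : ℤ) ^ vv a0 t ∣ (asc t).eval a := by
  rw [asc_eval]
  unfold vv
  rw [← Finset.prod_pow_eq_pow_sum]
  refine Finset.prod_dvd_prod_of_dvd _ _ fun i hi => ?_
  obtain ⟨h1, h2⟩ := Finset.mem_Icc.1 hi
  have h3 : 2 ^ padicValNat 2 (a0 + i) ∣ a0 + i := pow_padicValNat_dvd
  have h4 : 2 ^ padicValNat 2 (a0 + i) ≤ 2 ^ k := (Nat.le_of_dvd (by omega) h3).trans (by omega)
  have h5 : padicValNat 2 (a0 + i) ≤ k := (Nat.pow_le_pow_iff_right (by norm_num)).1 h4
  have h6 : (2 : ℤ) ^ padicValNat 2 (a0 + i) ∣ a - a0 := (pow_dvd_pow 2 h5).trans ha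
  have h7 : (2 : ℤ) ^ padicValNat 2 (a0 + i) ∣ (a0 : ℤ) + i := by exact_mod_cast h3
  have h8 := dvd_add h6 h7
  have h9 : a - a0 + (a0 + i) = a + i := by ring
  rwa [h9] at h8

/-- the number of `a < 2 ^ k` with small digit sum -/
theorem card_s2_lt (σ : ℕ) : ∀ k : ℕ,
    ((range (2 ^ k)).filter (fun a => s2 a < σ)).card * 4 ^ k ≤ 4 ^ σ * 5 ^ k := by
  induction σ with
  | zero => intro k; simp
  | succ σ ih =>
    intro k
    induction k with
    | zero =>
      have h1 : ((range (2 ^ 0)).filter (fun a => s2 a < σ + 1)).card ≤ 1 := by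
        refine (Finset.card_filter_le _ _).trans ?_
        simp
      have h2 : 1 ≤ 4 ^ (σ + 1) := Nat.one_le_pow _ _ (by norm_num)
      simpa using h1.trans h2
    | succ k ihk =>
      have h1 : (range (2 ^ (k + 1))).filter (fun a => s2 a < σ + 1) ⊆
          ((range (2 ^ k)).filter (fun a => s2 a < σ + 1)).image (fun b => 2 * b) ∪
          ((range (2 ^ k)).filter (fun a => s2 a < σ)).image (fun b => 2 * b + 1) := by
        intro a ha
        rw [Finset.mem_filter, Finset.mem_range, pow_succ] at ha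
        obtain ⟨ha1, ha2⟩ := ha
        rw [Finset.mem_union, Finset.mem_image, Finset.mem_image]
        rcases Nat.even_or_odd' a with ⟨b, rfl | rfl⟩
        · left
          rw [s2_two_mul] at ha2
          exact ⟨b, by rw [Finset.mem_filter, Finset.mem_range]; exact ⟨by omega, ha2⟩, rfl⟩
        · right
          rw [s2_two_mul_add] at ha2
          exact ⟨b, by rw [Finset.mem_filter, Finset.mem_range]; exact ⟨by omega, by omega⟩, rfl⟩
      have h2 : ((range (2 ^ (k + 1))).filter (fun a => s2 a < σ + 1)).card ≤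
          ((range (2 ^ k)).filter (fun a => s2 a < σ + 1)).card +
          ((range (2 ^ k)).filter (fun a => s2 a < σ)).card :=
        (Finset.card_le_card h1).trans ((Finset.card_union_le _ _).trans
          (Nat.add_le_add Finset.card_image_le Finset.card_image_le))
      have h3 := ih k
      calc _ ≤ (((range (2 ^ k)).filter (fun a => s2 a < σ + 1)).card +
          ((range (2 ^ k)).filter (fun a => s2 a < σ)).card) * 4 ^ (k + 1) :=
            Nat.mul_le_mul_right _ h2
        _ = 4 * (((range (2 ^ k)).filter (fun a => s2 a < σ + 1)).card * 4 ^ k +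
          ((range (2 ^ k)).filter (fun a => s2 a < σ)).card * 4 ^ k) := by ring
        _ ≤ 4 * (4 ^ (σ + 1) * 5 ^ k + 4 ^ σ * 5 ^ k) :=
            Nat.mul_le_mul_left _ (Nat.add_le_add ihk h3)
        _ = _ := by ring

theorem card_s2_lt' (σ j : ℕ) :
    ((range (2 ^ (2 * j))).filter (fun a => s2 a < σ)).card ≤ 2 ^ (2 * σ + j) := by
  have h1 := card_s2_lt σ (2 * j)
  have h2 : (5 : ℕ) ^ (2 * j) ≤ 2 ^ (5 * j) := by
    rw [pow_mul, pow_mul]
    exact Nat.pow_le_pow_left (by norm_num) _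
  have h3 : (4 : ℕ) ^ (2 * j) = 2 ^ (4 * j) := by
    have : (4 : ℕ) = 2 ^ 2 := by norm_num
    rw [this, ← pow_mul]; congr 1; ring
  have h4 : (4 : ℕ) ^ σ = 2 ^ (2 * σ) := by
    have : (4 : ℕ) = 2 ^ 2 := by norm_num
    rw [this, ← pow_mul]
  rw [h3, h4] at h1
  have h5 : ((range (2 ^ (2 * j))).filter (fun a => s2 a < σ)).card * 2 ^ (4 * j) ≤
      2 ^ (2 * σ + j) * 2 ^ (4 * j) := by
    calc _ ≤ _ := h1
      _ ≤ 2 ^ (2 * σ) * 2 ^ (5 * j) := Nat.mul_le_mul_left _ h2
      _ = _ := by rw [← pow_add, ← pow_add]; congr 1; ring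
  exact Nat.le_of_mul_le_mul_right h5 (by positivity)

/-- the condition `2 ^ n ∣ F_L(a)` but `2 ^ w` does not divide `F_L'(a)` -/
def Simple (L : Finset ℕ) (n w a : ℕ) : Prop :=
  (2 : ℤ) ^ n ∣ (FP L).eval (a : ℤ) ∧ ¬ (2 : ℤ) ^ w ∣ (derivative (FP L)).eval (a : ℤ)

open Classical in
/-- the number of solutions of `Simple` in one class modulo `2 ^ w` -/
theorem card_simple_class {M n w r : ℕ} (L : Finset ℕ) (hn : n + 1 - w ≤ M) :
    ((range (2 ^ M)).filter (fun a => a % 2 ^ w = r ∧ Simple L n w a)).card ≤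
      2 ^ (M - (n + 1 - w)) := by
  refine card_le_of_congr hn (Finset.filter_subset _ _) ?_
  intro a ha b hb
  obtain ⟨-, ha1, ha2, ha3⟩ := Finset.mem_filter.1 ha
  obtain ⟨-, hb1, hb2, -⟩ := Finset.mem_filter.1 hb
  refine sep ?_ ha3 ha2 hb2
  have h1 : ((2 ^ w : ℕ) : ℤ) ∣ (b : ℤ) - a := Nat.modEq_iff_dvd.1 (ha1.trans hb1.symm)
  simpa using h1

open Classical in
theorem card_simple {k w : ℕ} (L : Finset ℕ) (hw : w ≤ k) :
    ((range (2 ^ k)).filter (fun a => Simple L k w a)).card ≤ 2 ^ (2 * w) := by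
  have h1 : (range (2 ^ k)).filter (fun a => Simple L k w a) ⊆
      (range (2 ^ w)).biUnion fun r => (range (2 ^ k)).filter
        (fun a => a % 2 ^ w = r ∧ Simple L k w a) := by
    intro a ha
    obtain ⟨ha1, ha2⟩ := Finset.mem_filter.1 ha
    rw [Finset.mem_biUnion]
    exact ⟨a % 2 ^ w, Finset.mem_range.2 (Nat.mod_lt _ (by positivity)),
      Finset.mem_filter.2 ⟨ha1, rfl, ha2⟩⟩
  rcases Nat.eq_zero_or_pos w with h0 | h0
  · subst h0
    have h2 : (range (2 ^ k)).filter (fun a => Simple L k 0 a) = ∅ := by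
      apply Finset.filter_eq_empty_iff.2
      intro a _ h
      exact h.2 (by simp)
    rw [h2]; simp
  · calc _ ≤ _ := Finset.card_le_card h1
      _ ≤ (range (2 ^ w)).card * 2 ^ w := by
        refine Finset.card_biUnion_le_card_mul _ _ _ fun r _ => ?_
        refine (card_simple_class L (by omega)).trans ?_
        exact Nat.pow_le_pow_right (by norm_num) (by omega)
      _ = _ := by rw [Finset.card_range, two_mul, pow_add]

open Classical in
/-- admissible sets of small indices -/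
noncomputable def Adm (k w a0 t : ℕ) : Finset (Finset ℕ) :=
  (range t).powerset.filter fun L => Simple L k w a0

open Classical in
/-- first moment in one class modulo `2 ^ k` -/
theorem card_class {k w a0 t : ℕ} (h : a0 + t = 2 ^ k) (ht : 1 ≤ t) (hw : w ≤ k)
    (htw : 4 * w ≤ t) :
    ((range (2 ^ (2 ^ k))).filter (fun a => a % 2 ^ k = a0 ∧
      ∃ L, Simple L (vv a0 t) w a)).card * 2 ^ (vv a0 t + 1 - w) ≤
      (Adm k w a0 t).card * 2 ^ (2 ^ k) := by
  have hlt := vv_lt h
  have hge := le_vv h ht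
  have h1 : (range (2 ^ (2 ^ k))).filter (fun a => a % 2 ^ k = a0 ∧ ∃ L, Simple L (vv a0 t) w a) ⊆
      (Adm k w a0 t).biUnion fun L => (range (2 ^ (2 ^ k))).filter
        (fun a => a % 2 ^ w = a0 % 2 ^ w ∧ Simple L (vv a0 t) w a) := by
    intro a ha
    obtain ⟨ha1, ha2, L, hL1, hL2⟩ := Finset.mem_filter.1 ha
    have hcong : (2 : ℤ) ^ k ∣ (a : ℤ) - a0 := by
      have h2 : a0 ≡ a [MOD 2 ^ k] := by
        rw [← ha2]; exact Nat.mod_modEq a _
      have h3 : ((2 ^ k : ℕ) : ℤ) ∣ (a : ℤ) - a0 := Nat.modEq_iff_dvd.1 h2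
      simpa using h3
    have hlarge1 : (2 : ℤ) ^ vv a0 t ∣ (FP (L.filter (fun l => ¬ l < t))).eval (a : ℤ) := by
      have h2 : asc t ∣ FP (L.filter (fun l => ¬ l < t)) :=
        FP_large_dvd fun l hl => not_lt.1 (Finset.mem_filter.1 hl).2
      obtain ⟨c, hc⟩ := h2
      rw [hc, eval_mul]
      exact (vv_dvd h hcong).mul_right _
    have hlarge2 : (2 : ℤ) ^ w ∣ (derivative (FP (L.filter (fun l => ¬ l < t)))).eval (a : ℤ) :=
      FP_large_derivative (fun l hl => not_lt.1 (Finset.mem_filter.1 hl).2) htw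
    have hs1 : Simple (L.filter (· < t)) (vv a0 t) w a := by
      rw [FP_split L t, eval_add] at hL1
      rw [FP_split L t, derivative_add, eval_add] at hL2
      refine ⟨(dvd_add_left hlarge1).1 hL1, fun h3 => hL2 (dvd_add h3 hlarge2)⟩
    have hs2 : Simple (L.filter (· < t)) k w a0 := by
      refine ⟨?_, ?_⟩
      · have := (pow_dvd_pow (2 : ℤ) hge).trans hs1.1
        exact (dvd_eval_iff _ le_rfl hcong).1 this
      · intro h3
        exact hs1.2 ((dvd_eval_iff _ hw hcong).2 h3)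
    rw [Finset.mem_biUnion]
    refine ⟨L.filter (· < t), ?_, ?_⟩
    · unfold Adm
      rw [Finset.mem_filter, Finset.mem_powerset]
      refine ⟨?_, hs2⟩
      intro l hl
      exact Finset.mem_range.2 (Finset.mem_filter.1 hl).2
    · rw [Finset.mem_filter]
      refine ⟨ha1, ?_, hs1⟩
      rw [← ha2, Nat.mod_mod_of_dvd _ (pow_dvd_pow 2 hw)]
  have h2 : ((range (2 ^ (2 ^ k))).filter (fun a => a % 2 ^ k = a0 ∧
      ∃ L, Simple L (vv a0 t) w a)).card ≤
      (Adm k w a0 t).card * 2 ^ (2 ^ k - (vv a0 t + 1 - w)) := by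
    refine (Finset.card_le_card h1).trans ?_
    refine Finset.card_biUnion_le_card_mul _ _ _ fun L _ => ?_
    exact card_simple_class L (by omega)
  calc _ ≤ (Adm k w a0 t).card * 2 ^ (2 ^ k - (vv a0 t + 1 - w)) * 2 ^ (vv a0 t + 1 - w) :=
        Nat.mul_le_mul_right _ h2
    _ = _ := by
      rw [mul_assoc, ← pow_add]
      congr 2
      omega

open Classical in
/-- extension of admissible sets -/
theorem card_adm {k w a0 t : ℕ} (h : a0 + t = 2 ^ k) (ht : 1 ≤ t) (htw : 4 * w ≤ t) :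
    (Adm k w a0 t).card * 2 ^ a0 ≤
      ((range (2 ^ k)).powerset.filter fun L => Simple L k w a0).card := by
  have h1 : (Ico t (2 ^ k)).powerset.card = 2 ^ a0 := by
    rw [Finset.card_powerset, Nat.card_Ico]
    congr 1
    omega
  rw [← h1, ← Finset.card_product]
  refine Finset.card_le_card_of_injOn (fun p => p.1 ∪ p.2) ?_ ?_
  · rintro ⟨L, E⟩ hp
    rw [Finset.mem_coe, Finset.mem_product] at hp
    obtain ⟨hL, hE⟩ := hp
    simp only at hL hE
    unfold Adm at hL
    rw [Finset.mem_filter, Finset.mem_powerset] at hL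
    rw [Finset.mem_powerset] at hE
    obtain ⟨hL1, hL2, hL3⟩ := hL
    show L ∪ E ∈ _
    rw [Finset.mem_coe, Finset.mem_filter, Finset.mem_powerset]
    refine ⟨?_, ?_⟩
    · intro l hl
      rcases Finset.mem_union.1 hl with hl | hl
      · have := Finset.mem_range.1 (hL1 hl)
        exact Finset.mem_range.2 (by omega)
      · exact Finset.mem_range.2 (Finset.mem_Ico.1 (hE hl)).2
    · have hdisj : Disjoint L E := by
        rw [Finset.disjoint_left]
        intro l hl hl'
        have h2 := Finset.mem_range.1 (hL1 hl)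
        have h3 := (Finset.mem_Ico.1 (hE hl')).1
        omega
      have hsum : FP (L ∪ E) = FP L + FP E := by
        unfold FP
        rw [Finset.sum_union hdisj]
      have hEt : ∀ l ∈ E, t ≤ l := fun l hl => (Finset.mem_Ico.1 (hE hl)).1
      have hE1 : (2 : ℤ) ^ k ∣ (FP E).eval (a0 : ℤ) := by
        obtain ⟨c, hc⟩ := FP_large_dvd hEt
        obtain ⟨d, hd⟩ := lin_dvd_asc ht (le_refl t)
        rw [hc, hd, eval_mul, eval_mul, lin_eval]
        have h2 : (a0 : ℤ) + t = 2 ^ k := by exact_mod_cast h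
        rw [h2]
        exact Dvd.dvd.mul_right (dvd_mul_right _ _) _
      have hE2 : (2 : ℤ) ^ w ∣ (derivative (FP E)).eval (a0 : ℤ) := FP_large_derivative hEt htw
      unfold Simple
      rw [hsum, eval_add, derivative_add, eval_add]
      refine ⟨dvd_add hL2 hE1, fun h3 => hL3 ((dvd_add_left hE2).1 h3)⟩
  · rintro ⟨L, E⟩ hp ⟨L', E'⟩ hp' hpp
    rw [Finset.mem_coe, Finset.mem_product] at hp hp'
    obtain ⟨hL, hE⟩ := hp
    obtain ⟨hL', hE'⟩ := hp'
    simp only at hL hE hL' hE' hpp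
    unfold Adm at hL hL'
    rw [Finset.mem_filter, Finset.mem_powerset] at hL hL'
    rw [Finset.mem_powerset] at hE hE'
    have key : ∀ {A B A' B' : Finset ℕ}, A ⊆ range t → A' ⊆ range t → B ⊆ Ico t (2 ^ k) →
        B' ⊆ Ico t (2 ^ k) → A ∪ B = A' ∪ B' → A ⊆ A' ∧ B ⊆ B' := by
      intro A B A' B' hA hA' hB hB' hAB
      constructor
      · intro l hl
        have h2 : l ∈ A' ∪ B' := by rw [← hAB]; exact Finset.mem_union_left _ hl
        rcases Finset.mem_union.1 h2 with h3 | h3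
        · exact h3
        · have h4 := Finset.mem_range.1 (hA hl)
          have h5 := (Finset.mem_Ico.1 (hB' h3)).1
          omega
      · intro l hl
        have h2 : l ∈ A' ∪ B' := by rw [← hAB]; exact Finset.mem_union_right _ hl
        rcases Finset.mem_union.1 h2 with h3 | h3
        · have h4 := Finset.mem_range.1 (hA' h3)
          have h5 := (Finset.mem_Ico.1 (hB hl)).1
          omega
        · exact h3
    have k1 := key hL.1 hL'.1 hE hE' hpp
    have k2 := key hL'.1 hL.1 hE' hE hpp.symm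
    rw [Prod.mk.injEq]
    exact ⟨Finset.Subset.antisymm k1.1 k2.1, Finset.Subset.antisymm k1.2 k2.2⟩

open Classical in
/-- the exceptional set of the first moment lemma -/
noncomputable def S1 (k w σ : ℕ) : Finset ℕ :=
  (range (2 ^ (2 ^ k))).filter (fun a => σ ≤ s2 (a % 2 ^ k) ∧ a % 2 ^ k + 4 * w ≤ 2 ^ k ∧
    ∃ L, Simple L (vv (a % 2 ^ k) (2 ^ k - a % 2 ^ k)) w a)

open Classical in
theorem card_S1 {k w σ : ℕ} (hw : w ≤ k) :
    (S1 k w σ).card * 2 ^ σ ≤ 2 ^ (2 ^ k + 3 * w) := by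
  have hk : k < 2 ^ k := Nat.lt_two_pow_self
  -- one class
  have hclass : ∀ a0 ∈ range (2 ^ k), ((S1 k w σ).filter (fun a => a % 2 ^ k = a0)).card *
      2 ^ (2 ^ k + σ - w) ≤
      ((range (2 ^ k)).powerset.filter fun L => Simple L k w a0).card * 2 ^ (2 ^ k) := by
    intro a0 ha0
    rw [Finset.mem_range] at ha0
    by_cases hcase : σ ≤ s2 a0 ∧ a0 + 4 * w ≤ 2 ^ k
    · obtain ⟨hs, ht4⟩ := hcase
      obtain ⟨t, ht⟩ : ∃ t, a0 + t = 2 ^ k := ⟨2 ^ k - a0, by omega⟩
      have ht1 : 1 ≤ t := by omega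
      have htw : 4 * w ≤ t := by omega
      have h1 := card_class ht ht1 hw htw
      have h2 := card_adm (k := k) (w := w) ht ht1 htw
      have hsub : (S1 k w σ).filter (fun a => a % 2 ^ k = a0) ⊆
          (range (2 ^ (2 ^ k))).filter (fun a => a % 2 ^ k = a0 ∧ ∃ L, Simple L (vv a0 t) w a) := by
        intro a ha
        obtain ⟨ha1, ha2⟩ := Finset.mem_filter.1 ha
        unfold S1 at ha1
        obtain ⟨ha3, -, -, L, hL⟩ := Finset.mem_filter.1 ha1
        rw [Finset.mem_filter]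
        refine ⟨ha3, ha2, L, ?_⟩
        rw [ha2] at hL
        have : 2 ^ k - a0 = t := by omega
        rwa [this] at hL
      have h3 := Finset.card_le_card hsub
      have h4 := vv_add ht
      calc _ ≤ ((range (2 ^ (2 ^ k))).filter (fun a => a % 2 ^ k = a0 ∧
              ∃ L, Simple L (vv a0 t) w a)).card * (2 ^ (vv a0 t + 1 - w) * 2 ^ a0) := by
            rw [← pow_add]
            refine Nat.mul_le_mul h3 (Nat.pow_le_pow_right (by norm_num) ?_)
            omega
        _ = ((range (2 ^ (2 ^ k))).filter (fun a => a % 2 ^ k = a0 ∧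
              ∃ L, Simple L (vv a0 t) w a)).card * 2 ^ (vv a0 t + 1 - w) * 2 ^ a0 := by ring
        _ ≤ (Adm k w a0 t).card * 2 ^ (2 ^ k) * 2 ^ a0 := Nat.mul_le_mul_right _ h1
        _ = (Adm k w a0 t).card * 2 ^ a0 * 2 ^ (2 ^ k) := by ring
        _ ≤ _ := Nat.mul_le_mul_right _ h2
    · have h0 : (S1 k w σ).filter (fun a => a % 2 ^ k = a0) = ∅ := by
        apply Finset.filter_eq_empty_iff.2
        intro a ha ha2
        unfold S1 at ha
        obtain ⟨-, hs, ht4, -⟩ := Finset.mem_filter.1 ha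
        rw [ha2] at hs ht4
        exact hcase ⟨hs, ht4⟩
      rw [h0]; simp
  -- sum over classes
  have hsum : (S1 k w σ).card = ∑ a0 ∈ range (2 ^ k),
      ((S1 k w σ).filter (fun a => a % 2 ^ k = a0)).card := by
    refine Finset.card_eq_sum_card_fiberwise fun a _ => ?_
    exact Finset.mem_coe.2 (Finset.mem_range.2 (Nat.mod_lt _ (by positivity)))
  have hdouble : ∑ a0 ∈ range (2 ^ k),
      ((range (2 ^ k)).powerset.filter fun L => Simple L k w a0).card ≤
      2 ^ (2 ^ k) * 2 ^ (2 * w) := by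
    have h1 : ∑ a0 ∈ range (2 ^ k),
        ((range (2 ^ k)).powerset.filter fun L => Simple L k w a0).card =
        ∑ L ∈ (range (2 ^ k)).powerset, ((range (2 ^ k)).filter fun a0 => Simple L k w a0).card := by
      simp_rw [Finset.card_filter]
      exact Finset.sum_comm
    rw [h1]
    refine (Finset.sum_le_card_nsmul _ _ _ fun L _ => card_simple L hw).trans ?_
    rw [Finset.card_powerset, Finset.card_range, smul_eq_mul]
  have htot : (S1 k w σ).card * 2 ^ (2 ^ k + σ - w) ≤ 2 ^ (2 ^ k) * 2 ^ (2 * w) * 2 ^ (2 ^ k) := by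
    rw [hsum, Finset.sum_mul]
    refine (Finset.sum_le_sum hclass).trans ?_
    rw [← Finset.sum_mul]
    exact Nat.mul_le_mul_right _ hdouble
  have h5 : 2 ^ (2 ^ k + σ - w) * 2 ^ w = 2 ^ (2 ^ k) * 2 ^ σ := by
    rw [← pow_add, ← pow_add]
    congr 1
    omega
  have h6 : (S1 k w σ).card * 2 ^ σ * 2 ^ (2 ^ k) ≤ 2 ^ (2 ^ k + 3 * w) * 2 ^ (2 ^ k) := by
    calc (S1 k w σ).card * 2 ^ σ * 2 ^ (2 ^ k) = (S1 k w σ).card * (2 ^ (2 ^ k) * 2 ^ σ) := by ring
      _ = (S1 k w σ).card * 2 ^ (2 ^ k + σ - w) * 2 ^ w := by rw [← h5]; ring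
      _ ≤ 2 ^ (2 ^ k) * 2 ^ (2 * w) * 2 ^ (2 ^ k) * 2 ^ w := Nat.mul_le_mul_right _ htot
      _ = _ := by
        have : 3 * w = 2 * w + w := by ring
        rw [this, pow_add, pow_add]
        ring
  exact Nat.le_of_mul_le_mul_right h6 (by positivity)

end Pool.Agent.Helper58.FS
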