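import Pool.Agent.Helper58.FS.First

/-!
# The types of sets `L` and the degenerate type
-/

set_option autoImplicit false

open Polynomial Finset

namespace Pool.Agent.Helper58.FS

/-- `(X+1)(X+3)...(X+l)` -/
noncomputable def A (l : ℕ) : ℤ[X] := ∏ i ∈ (Icc 1 l).erase 2, lin i

theorem A_succ {l : ℕ} (hl : 2 ≤ l) : A (l + 1) = A l * lin (l + 1) := by
  unfold A
  have h1 : (Icc 1 (l + 1)).erase 2 = insert (l + 1) ((Icc 1 l).erase 2) := by
    ext i
    simp only [Finset.mem_erase, Finset.mem_Icc, Finset.mem_insert]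
    omega
  rw [h1, Finset.prod_insert (by simp), mul_comm]

theorem A_two : A 2 = lin 1 := by
  unfold A
  have h1 : (Icc 1 2).erase 2 = {1} := by decide
  rw [h1, Finset.prod_singleton]

theorem A_dvd {l l' : ℕ} (h : l ≤ l') : A l ∣ A l' :=
  Finset.prod_dvd_prod_of_subset _ _ _
    (Finset.erase_subset_erase _ (Finset.Icc_subset_Icc_right h))

theorem asc_eq {l : ℕ} (hl : 2 ≤ l) : asc l = lin 2 * A l := by
  unfold asc A
  rw [Finset.mul_prod_erase]
  exact Finset.mem_Icc.2 ⟨by norm_num, hl⟩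

/-- `F_L / (X + 2)` when `0, 1 ∈ L` -/
noncomputable def GP (L : Finset ℕ) : ℤ[X] := 1 + ∑ l ∈ L.filter (2 ≤ ·), A l

theorem FP_eq {L : Finset ℕ} (h0 : 0 ∈ L) (h1 : 1 ∈ L) : FP L = lin 2 * GP L := by
  have hL : L = insert 0 (insert 1 (L.filter (2 ≤ ·))) := by
    ext l
    simp only [Finset.mem_insert, Finset.mem_filter]
    constructor
    · intro hl
      by_cases h2 : 2 ≤ l
      · exact Or.inr (Or.inr ⟨hl, h2⟩)
      · have : l = 0 ∨ l = 1 := by omega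
        rcases this with rfl | rfl
        · exact Or.inl rfl
        · exact Or.inr (Or.inl rfl)
    · rintro (rfl | rfl | ⟨hl, -⟩)
      · exact h0
      · exact h1
      · exact hl
  have hF : FP L = asc 0 + (asc 1 + ∑ l ∈ L.filter (2 ≤ ·), asc l) := by
    unfold FP
    conv_lhs => rw [hL]
    rw [Finset.sum_insert (by simp), Finset.sum_insert (by simp)]
  have hs : ∑ l ∈ L.filter (2 ≤ ·), asc l = lin 2 * ∑ l ∈ L.filter (2 ≤ ·), A l := by
    rw [Finset.mul_sum]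
    exact Finset.sum_congr rfl fun l hl => asc_eq (Finset.mem_filter.1 hl).2
  have h11 : asc 1 = lin 1 := by
    have := asc_succ 0
    rw [asc_zero, one_mul] at this
    exact this
  rw [hF, hs, asc_zero, h11, GP, mul_add, mul_one, ← add_assoc]
  congr 1
  simp only [lin, Nat.cast_one, Nat.cast_ofNat]
  rw [← C_1 (R := ℤ)]
  have : (C (2 : ℤ) : ℤ[X]) = C 1 + C 1 := by rw [← C_add]; norm_num
  rw [this]
  ring

/-- membership bit -/
def bit (L : Finset ℕ) (l : ℕ) : ℤ := if l ∈ L then 1 else 0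

theorem bit_cases (L : Finset ℕ) (l : ℕ) : bit L l = 0 ∨ bit L l = 1 := by
  unfold bit; split_ifs <;> simp

theorem bit_eq_one {L : Finset ℕ} {l : ℕ} : bit L l = 1 ↔ l ∈ L := by
  unfold bit; split_ifs with h <;> simp [h]

theorem bit_eq_zero {L : Finset ℕ} {l : ℕ} : bit L l = 0 ↔ l ∉ L := by
  unfold bit; split_ifs with h <;> simp [h]

theorem asc_one : asc 1 = X + 1 := by
  have := asc_succ 0
  rw [asc_zero, one_mul] at this
  rw [this]
  simp [lin]

theorem asc_two : asc 2 = (X + 1) * (X + 2) := by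
  rw [asc_succ 1, asc_one]
  simp [lin]

theorem FP_mod (L : Finset ℕ) : ∃ H : ℤ[X], FP L = C (bit L 0) + C (bit L 1) * (X + 1) +
    (X + 1) * (X + 2) * H := by
  have h3 : asc 2 ∣ FP (L.filter (2 ≤ ·)) := FP_large_dvd fun l hl => (Finset.mem_filter.1 hl).2
  obtain ⟨K, hK⟩ := h3
  refine ⟨K, ?_⟩
  have h1 : L = (range 2).filter (· ∈ L) ∪ L.filter (2 ≤ ·) := by
    ext x
    simp only [Finset.mem_union, Finset.mem_filter, Finset.mem_range]
    constructor
    · intro h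
      rcases lt_or_ge x 2 with h2 | h2
      · exact Or.inl ⟨h2, h⟩
      · exact Or.inr ⟨h, h2⟩
    · rintro (⟨_, h⟩ | ⟨h, _⟩) <;> exact h
  have h2 : FP L = FP ((range 2).filter (· ∈ L)) + FP (L.filter (2 ≤ ·)) := by
    conv_lhs => rw [h1]
    unfold FP
    rw [Finset.sum_union]
    rw [Finset.disjoint_left]
    intro x hx hx'
    have h5 := Finset.mem_range.1 (Finset.mem_filter.1 hx).1
    have h6 := (Finset.mem_filter.1 hx').2
    omega
  have h4 : FP ((range 2).filter (· ∈ L)) = C (bit L 0) + C (bit L 1) * (X + 1) := by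
    unfold FP
    rw [Finset.sum_filter, Finset.sum_range_succ, Finset.sum_range_one, asc_zero, asc_one]
    unfold bit
    split_ifs <;> simp
  rw [h2, hK, h4, asc_two]

theorem A_two' : A 2 = X + 1 := by rw [A_two]; simp [lin]

theorem A_three : A 3 = (X + 1) * (X + 3) := by rw [A_succ (by norm_num), A_two']; simp [lin]

theorem A_four : A 4 = (X + 1) * (X + 3) * (X + 4) := by
  rw [A_succ (by norm_num), A_three]; simp [lin]

theorem A_five : A 5 = (X + 1) * (X + 3) * (X + 4) * (X + 5) := by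
  rw [A_succ (by norm_num), A_four]; simp [lin]

theorem A_six : A 6 = (X + 1) * (X + 3) * (X + 4) * (X + 5) * (X + 6) := by
  rw [A_succ (by norm_num), A_five]; simp [lin]

theorem GP_mod (L : Finset ℕ) : ∃ H : ℤ[X], GP L = 1 + C (bit L 2) * (X + 1) +
    C (bit L 3) * ((X + 1) * (X + 3)) + C (bit L 4) * ((X + 1) * (X + 3) * (X + 4)) +
    C (bit L 5) * ((X + 1) * (X + 3) * (X + 4) * (X + 5)) +
    (X + 1) * (X + 3) * (X + 4) * (X + 5) * (X + 6) * H := by
  have h3 : A 6 ∣ ∑ l ∈ L.filter (6 ≤ ·), A l :=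
    Finset.dvd_sum fun l hl => A_dvd (Finset.mem_filter.1 hl).2
  obtain ⟨K, hK⟩ := h3
  refine ⟨K, ?_⟩
  have h1 : L.filter (2 ≤ ·) = (Icc 2 5).filter (· ∈ L) ∪ L.filter (6 ≤ ·) := by
    ext x
    simp only [Finset.mem_union, Finset.mem_filter, Finset.mem_Icc]
    constructor
    · rintro ⟨h, h'⟩
      rcases lt_or_ge x 6 with h2 | h2
      · exact Or.inl ⟨⟨h', by omega⟩, h⟩
      · exact Or.inr ⟨h, h2⟩
    · rintro (⟨h', h⟩ | ⟨h, h'⟩)
      · exact ⟨h, h'.1⟩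
      · exact ⟨h, by omega⟩
  have h2 : ∑ l ∈ L.filter (2 ≤ ·), A l = ∑ l ∈ (Icc 2 5).filter (· ∈ L), A l +
      ∑ l ∈ L.filter (6 ≤ ·), A l := by
    rw [h1, Finset.sum_union]
    rw [Finset.disjoint_left]
    intro x hx hx'
    have h5 := Finset.mem_Icc.1 (Finset.mem_filter.1 hx).1
    have h6 := (Finset.mem_filter.1 hx').2
    omega
  have h4 : ∑ l ∈ (Icc 2 5).filter (· ∈ L), A l = C (bit L 2) * (X + 1) +
    C (bit L 3) * ((X + 1) * (X + 3)) + C (bit L 4) * ((X + 1) * (X + 3) * (X + 4)) +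
    C (bit L 5) * ((X + 1) * (X + 3) * (X + 4) * (X + 5)) := by
    have h5 : Icc 2 5 = ({2, 3, 4, 5} : Finset ℕ) := by decide
    rw [Finset.sum_filter, h5, Finset.sum_insert (by decide), Finset.sum_insert (by decide),
      Finset.sum_insert (by decide), Finset.sum_singleton, A_two', A_three, A_four, A_five]
    unfold bit
    split_ifs <;> simp <;> ring
  unfold GP
  rw [h2, h4, hK, A_six]
  ring

/-- the degenerate type -/
def T4 (L : Finset ℕ) : Prop := 0 ∈ L ∧ 1 ∈ L ∧ 2 ∉ L ∧ 3 ∈ L ∧ (4 ∈ L ↔ 5 ∈ L)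

/-- the shape of `GP L` for the degenerate type -/
theorem GP_T4 {L : Finset ℕ} (h : T4 L) : ∃ P : ℤ[X],
    GP L = (X + 2) ^ 2 + (X + 1) * (X + 3) * (X + 4) * (X + 6) * P := by
  obtain ⟨H, hH⟩ := GP_mod L
  obtain ⟨-, -, h2, h3, h45⟩ := h
  rw [bit_eq_zero.2 h2, bit_eq_one.2 h3] at hH
  have h5 : bit L 5 = bit L 4 := by
    unfold bit; by_cases h4 : 4 ∈ L
    · rw [if_pos h4, if_pos (h45.1 h4)]
    · rw [if_neg h4, if_neg (fun h => h4 (h45.2 h))]
  rw [h5] at hH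
  refine ⟨C (bit L 4) + (X + 5) * H, ?_⟩
  rw [hH]
  simp only [C_0, C_1]
  ring

theorem one_mem {L : Finset ℕ} {a : ℤ} (h0 : 0 ∈ L) (hF : (2 : ℤ) ∣ (FP L).eval a) :
    1 ∈ L ∧ (2 : ℤ) ∣ a := by
  obtain ⟨H, hH⟩ := FP_mod L
  rw [hH, bit_eq_one.2 h0] at hF
  simp only [C_1, eval_add, eval_mul, eval_one, eval_X, eval_C, eval_ofNat] at hF
  have h2 : (2 : ℤ) ∣ (a + 1) * (a + 2) * eval a H := by
    apply Dvd.dvd.mul_right
    rcases Int.even_or_odd a with h | h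
    · obtain ⟨b, rfl⟩ := h; exact ⟨(b + b + 1) * (b + 1), by ring⟩
    · obtain ⟨b, rfl⟩ := h; exact ⟨(b + 1) * (2 * b + 1 + 2), by ring⟩
  have h3 := (dvd_add_left h2).1 hF
  rcases bit_cases L 1 with h | h
  · rw [h] at h3
    norm_num at h3
  · rw [h] at h3
    refine ⟨bit_eq_one.1 h, ?_⟩
    obtain ⟨c, hc⟩ := h3
    exact ⟨c - 1, by linarith⟩

/-- values of `GP L` at `2 b` -/
def gv {R : Type*} [CommRing R] (c2 c3 c4 c5 b h : R) : R :=
  1 + c2 * (2 * b + 1) + c3 * ((2 * b + 1) * (2 * b + 3)) +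
    c4 * ((2 * b + 1) * (2 * b + 3) * (2 * b + 4)) +
    c5 * ((2 * b + 1) * (2 * b + 3) * (2 * b + 4) * (2 * b + 5)) +
    (2 * b + 1) * (2 * b + 3) * (2 * b + 4) * (2 * b + 5) * (2 * b + 6) * h

/-- values of the derivative of `GP L` at `2 b` -/
def gd {R : Type*} [CommRing R] (c2 c3 c4 c5 b h h' : R) : R :=
  c2 + c3 * (2 * b + 3 + (2 * b + 1)) +
    c4 * ((2 * b + 3 + (2 * b + 1)) * (2 * b + 4) + (2 * b + 1) * (2 * b + 3)) +
    c5 * (((2 * b + 3 + (2 * b + 1)) * (2 * b + 4) + (2 * b + 1) * (2 * b + 3)) * (2 * b + 5) +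
      (2 * b + 1) * (2 * b + 3) * (2 * b + 4)) +
    (((((2 * b + 3 + (2 * b + 1)) * (2 * b + 4) + (2 * b + 1) * (2 * b + 3)) * (2 * b + 5) +
      (2 * b + 1) * (2 * b + 3) * (2 * b + 4)) * (2 * b + 6) +
      (2 * b + 1) * (2 * b + 3) * (2 * b + 4) * (2 * b + 5)) * h +
    (2 * b + 1) * (2 * b + 3) * (2 * b + 4) * (2 * b + 5) * (2 * b + 6) * h')

theorem gv_cast {R : Type*} [CommRing R] (c2 c3 c4 c5 b h : ℤ) :
    ((gv c2 c3 c4 c5 b h : ℤ) : R) = gv (c2 : R) c3 c4 c5 b h := by simp [gv]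

theorem gd_cast {R : Type*} [CommRing R] (c2 c3 c4 c5 b h h' : ℤ) :
    ((gd c2 c3 c4 c5 b h h' : ℤ) : R) = gd (c2 : R) c3 c4 c5 b h h' := by simp [gd]

theorem step1 : ∀ c2 c3 c4 c5 b h : ZMod 2, gv c2 c3 c4 c5 b h = 0 → c2 + c3 = 1 := by
  unfold gv; decide

theorem step2 : ∀ c2 c3 c4 c5 b h h' : ZMod 2, gd c2 c3 c4 c5 b h h' = 0 → c2 + c4 + c5 = 0 := by
  unfold gd; decide

theorem step3 : ∀ b h : ZMod 4, gv 1 0 1 0 b h ≠ 0 ∧ gv 1 0 0 1 b h ≠ 0 := by
  unfold gv; decide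

theorem step4 : ∀ d h : ZMod 8, gv 0 1 0 0 (2 * d) h ≠ 0 ∧ gv 0 1 1 1 (2 * d) h ≠ 0 := by
  unfold gv; decide

theorem step5 : ∀ j h h' : ZMod 4,
    (gd 0 1 0 0 (4 * j + 1) h h' = 0 → 2 * (0 + (8 * j + 7) * h) = 0) ∧
    (gd 0 1 1 1 (4 * j + 1) h h' = 0 → 2 * (1 + (8 * j + 7) * h) = 0) := by
  unfold gd; decide

theorem zmod_zero {n : ℕ} {x : ℤ} (h : (n : ℤ) ∣ x) : (x : ZMod n) = 0 :=
  (ZMod.intCast_zmod_eq_zero_iff_dvd x n).2 h

theorem step6 {c j h x : ℤ} (hG : gv 0 1 c c (4 * j + 1) h = 32 * x)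
    (hP : (4 : ℤ) ∣ 2 * (c + (8 * j + 7) * h)) : False := by
  obtain ⟨y, hy⟩ := hP
  have h1 : c + (8 * j + 7) * h = 2 * y := by linarith
  have h2 : gv 0 1 c c (4 * j + 1) h = (8 * j + 4) ^ 2 +
      (8 * j + 3) * (8 * j + 5) * (8 * j + 6) * (8 * j + 8) * (c + (8 * j + 7) * h) := by
    unfold gv; ring
  rw [h2, h1] at hG
  have h3 : (8 * j + 4) ^ 2 + (8 * j + 3) * (8 * j + 5) * (8 * j + 6) * (8 * j + 8) * (2 * y) =
      16 * (2 * (2 * j ^ 2 + 2 * j + (8 * j + 3) * (8 * j + 5) * (4 * j + 3) * (j + 1) * y) + 1) := by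
    ring
  rw [h3] at hG
  generalize 2 * j ^ 2 + 2 * j + (8 * j + 3) * (8 * j + 5) * (4 * j + 3) * (j + 1) * y = z at hG
  omega

theorem type_analysis {L : Finset ℕ} {a : ℤ} (h0 : 0 ∈ L) (h1 : 1 ∈ L) (ha : (2 : ℤ) ∣ a)
    (hG : (32 : ℤ) ∣ (GP L).eval a) (hG' : (4 : ℤ) ∣ (derivative (GP L)).eval a) :
    T4 L ∧ a % 8 = 6 := by
  obtain ⟨H, hH⟩ := GP_mod L
  have hD := congrArg derivative hH
  simp only [derivative_add, derivative_mul, derivative_one, derivative_C, derivative_X,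
    derivative_ofNat] at hD
  rw [hH] at hG
  rw [hD] at hG'
  simp only [eval_add, eval_mul, eval_one, eval_X, eval_C, eval_ofNat, zero_add,
    add_zero, mul_one, one_mul, zero_mul] at hG hG'
  obtain ⟨b, rfl⟩ := ha
  generalize eval (2 * b) H = h at hG hG'
  generalize eval (2 * b) (derivative H) = h' at hG'
  change 32 ∣ gv (bit L 2) (bit L 3) (bit L 4) (bit L 5) b h at hG
  change 4 ∣ gd (bit L 2) (bit L 3) (bit L 4) (bit L 5) b h h' at hG'
  have e1 : ((bit L 2 : ℤ) : ZMod 2) + (bit L 3 : ℤ) = 1 := by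
    refine step1 _ _ ((bit L 4 : ℤ) : ZMod 2) ((bit L 5 : ℤ) : ZMod 2) (b : ZMod 2) (h : ZMod 2) ?_
    rw [← gv_cast]
    exact zmod_zero (n := 2) (dvd_trans (by norm_num) hG)
  have e2 : ((bit L 2 : ℤ) : ZMod 2) + (bit L 4 : ℤ) + (bit L 5 : ℤ) = 0 := by
    refine step2 _ ((bit L 3 : ℤ) : ZMod 2) _ _ (b : ZMod 2) (h : ZMod 2) (h' : ZMod 2) ?_
    rw [← gd_cast]
    exact zmod_zero (n := 2) (dvd_trans (by norm_num) hG')
  have hcase : (bit L 2 = 1 ∧ bit L 3 = 0 ∧ (bit L 4 = 1 ∧ bit L 5 = 0 ∨ bit L 4 = 0 ∧ bit L 5 = 1)) ∨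
      (bit L 2 = 0 ∧ bit L 3 = 1 ∧ (bit L 4 = 0 ∧ bit L 5 = 0 ∨ bit L 4 = 1 ∧ bit L 5 = 1)) := by
    rcases bit_cases L 2 with h2 | h2 <;> rcases bit_cases L 3 with h3 | h3 <;>
    rcases bit_cases L 4 with h4 | h4 <;> rcases bit_cases L 5 with h5 | h5 <;>
    rw [h2, h3] at e1 <;> rw [h2, h4, h5] at e2 <;> simp only [h2, h3, h4, h5] <;>
    first
    | (exfalso; revert e1; decide)
    | (exfalso; revert e2; decide)
    | simp
  rcases hcase with ⟨h2, h3, h45⟩ | ⟨h2, h3, h45⟩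
  · exfalso
    have key : gv ((bit L 2 : ℤ) : ZMod 4) (bit L 3 : ℤ) (bit L 4 : ℤ) (bit L 5 : ℤ) b h = 0 := by
      rw [← gv_cast]
      exact zmod_zero (n := 4) (dvd_trans (by norm_num) hG)
    rcases h45 with ⟨h4, h5⟩ | ⟨h4, h5⟩
    · rw [h2, h3, h4, h5] at key
      push_cast at key
      exact (step3 _ _).1 key
    · rw [h2, h3, h4, h5] at key
      push_cast at key
      exact (step3 _ _).2 key
  · have hT : T4 L := by
      refine ⟨h0, h1, bit_eq_zero.1 h2, bit_eq_one.1 h3, ?_⟩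
      rcases h45 with ⟨h4, h5⟩ | ⟨h4, h5⟩
      · exact ⟨fun h => absurd h (bit_eq_zero.1 h4), fun h => absurd h (bit_eq_zero.1 h5)⟩
      · exact ⟨fun _ => bit_eq_one.1 h5, fun _ => bit_eq_one.1 h4⟩
    refine ⟨hT, ?_⟩
    rcases Int.even_or_odd' b with ⟨d, rfl | rfl⟩
    · exfalso
      have key : gv ((bit L 2 : ℤ) : ZMod 8) (bit L 3 : ℤ) (bit L 4 : ℤ) (bit L 5 : ℤ)
          ((2 * d : ℤ) : ZMod 8) h = 0 := by
        rw [← gv_cast]
        exact zmod_zero (n := 8) (dvd_trans (by norm_num) hG)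
      rcases h45 with ⟨h4, h5⟩ | ⟨h4, h5⟩
      · rw [h2, h3, h4, h5] at key
        push_cast at key
        exact (step4 _ _).1 key
      · rw [h2, h3, h4, h5] at key
        push_cast at key
        exact (step4 _ _).2 key
    · rcases Int.even_or_odd' d with ⟨j, rfl | rfl⟩
      · exfalso
        have hb : 2 * (2 * j) + 1 = 4 * j + 1 := by ring
        rw [hb] at hG hG'
        obtain ⟨x, hx⟩ := hG
        have key : gd ((bit L 2 : ℤ) : ZMod 4) (bit L 3 : ℤ) (bit L 4 : ℤ) (bit L 5 : ℤ)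
            ((4 * j + 1 : ℤ) : ZMod 4) h h' = 0 := by
          rw [← gd_cast]
          exact zmod_zero (n := 4) hG'
        rcases h45 with ⟨h4, h5⟩ | ⟨h4, h5⟩
        · rw [h2, h3, h4, h5] at key hx
          push_cast at key
          have k2 := (step5 _ _ _).1 key
          refine step6 hx ?_
          have k3 : (((2 * (0 + (8 * j + 7) * h)) : ℤ) : ZMod 4) = 0 := by push_cast; exact k2
          exact (ZMod.intCast_zmod_eq_zero_iff_dvd _ 4).1 k3
        · rw [h2, h3, h4, h5] at key hx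
          push_cast at key
          have k2 := (step5 _ _ _).2 key
          refine step6 hx ?_
          have k3 : (((2 * (1 + (8 * j + 7) * h)) : ℤ) : ZMod 4) = 0 := by push_cast; exact k2
          exact (ZMod.intCast_zmod_eq_zero_iff_dvd _ 4).1 k3
      · omega

/-- for the degenerate type the second derivative is `2` modulo `4` -/
theorem second_derivative {L : Finset ℕ} (hT : T4 L) {a : ℤ} (ha : a % 8 = 6)
    (hG : (16 : ℤ) ∣ (GP L).eval a) :
    (derivative (derivative (GP L))).eval a % 4 = 2 := by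
  obtain ⟨P, hP⟩ := GP_T4 hT
  obtain ⟨j, rfl⟩ : ∃ j, a = 8 * j + 6 := ⟨a / 8, by omega⟩
  have h1 : (GP L).eval (8 * j + 6) = 8 * (2 * (4 * (j + 1) ^ 2) +
      (8 * j + 7) * (8 * j + 9) * (4 * j + 5) * (2 * j + 3) * P.eval (8 * j + 6)) := by
    rw [hP]
    simp only [eval_add, eval_mul, eval_pow, eval_X, eval_ofNat, eval_one]
    ring
  have h2 : (2 : ℤ) ∣ P.eval (8 * j + 6) := by
    rw [h1] at hG
    have h3 : (2 : ℤ) ∣ 2 * (4 * (j + 1) ^ 2) +
      (8 * j + 7) * (8 * j + 9) * (4 * j + 5) * (2 * j + 3) * P.eval (8 * j + 6) := by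
      obtain ⟨x, hx⟩ := hG
      exact ⟨x, by linarith⟩
    have h4 : (2 : ℤ) ∣ (8 * j + 7) * (8 * j + 9) * (4 * j + 5) * (2 * j + 3) * P.eval (8 * j + 6) :=
      (dvd_add_right (dvd_mul_right 2 _)).1 h3
    have h5 : ((8 * j + 7) * (8 * j + 9) * (4 * j + 5) * (2 * j + 3) : ℤ) =
      2 * (((8 * j + 7) * (8 * j + 9) * (4 * j + 5) * (2 * j + 3) - 1) / 2) + 1 := by
      have h6 : ((8 * j + 7) * (8 * j + 9) * (4 * j + 5) * (2 * j + 3) : ℤ) =
        2 * (256 * j ^ 4 + 1216 * j ^ 3 + 2140 * j ^ 2 + 1653 * j + 472) + 1 := by ring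
      omega
    have h7 : ¬ (2 : ℤ) ∣ (8 * j + 7) * (8 * j + 9) * (4 * j + 5) * (2 * j + 3) := by
      rw [h5]; omega
    exact (Int.prime_two.dvd_or_dvd h4).resolve_left h7
  rw [hP]
  obtain ⟨p, hp⟩ := h2
  simp only [derivative_add, derivative_mul, derivative_pow, derivative_X, derivative_ofNat,
    derivative_one, eval_add, eval_mul, eval_X, eval_ofNat, eval_one, hp, map_ofNat,
    Nat.cast_ofNat, mul_one, add_zero, zero_mul, zero_add, one_mul,
    pow_one, Nat.add_one_sub_one]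
  generalize eval (8 * j + 6) (derivative P) = p1
  generalize eval (8 * j + 6) (derivative (derivative P)) = p2
  have key : ∀ E : ℤ, E = 2 + 4 * (((24 * j + 26) * (8 * j + 12) + (16 * j + 16) * (8 * j + 10) +
      (8 * j + 7) * (8 * j + 9)) * p +
      (((16 * j + 16) * (8 * j + 10) + (8 * j + 7) * (8 * j + 9)) * (4 * j + 6) +
        (8 * j + 7) * (8 * j + 9) * (4 * j + 5)) * p1 +
      2 * (8 * j + 7) * (8 * j + 9) * (4 * j + 5) * (2 * j + 3) * p2) → E % 4 = 2 := by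
    intro E hE
    rw [hE]
    omega
  apply key
  ring

/-- separation of near critical points -/
theorem sep_critical {L : Finset ℕ} (hT : T4 L) {a b : ℤ} (ha : a % 8 = 6)
    (hab : (8 : ℤ) ∣ b - a) (hG : (16 : ℤ) ∣ (GP L).eval a) {n : ℕ}
    (h1 : (2 : ℤ) ^ n ∣ (derivative (GP L)).eval a)
    (h2 : (2 : ℤ) ^ n ∣ (derivative (GP L)).eval b) : (2 : ℤ) ^ (n + 1 - 2) ∣ b - a := by
  have hs := second_derivative hT ha hG
  obtain ⟨k, hk⟩ := (derivative (GP L)).binomExpansion a (b - a)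
  have h3 : a + (b - a) = b := by ring
  rw [h3] at hk
  obtain ⟨c, hc⟩ := hab
  have h4 : (2 : ℤ) ^ n ∣ ((derivative (derivative (GP L))).eval a + k * (b - a)) * (b - a) := by
    have h5 : ((derivative (derivative (GP L))).eval a + k * (b - a)) * (b - a) =
        (derivative (GP L)).eval b - (derivative (GP L)).eval a := by rw [hk]; ring
    rw [h5]; exact dvd_sub h2 h1
  refine two_pow_dvd_right h4 ?_
  rw [hc]
  intro h5
  have h6 : (4 : ℤ) ∣ k * (8 * c) := ⟨2 * k * c, by ring⟩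
  have h7 : (4 : ℤ) ∣ (derivative (derivative (GP L))).eval a := by
    have h8 := dvd_sub h5 h6
    simpa using h8
  omega

end Pool.Agent.Helper58.FS
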